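import Mathlib

/-! # Irreducible polynomials in two variables over a factorial domain (after helper22's Alg.lean) -/

open MvPolynomial

namespace Pool.Agent.Helper69.AA

section sqf

variable {R : Type} [CommRing R] [IsDomain R]

/-- clearing denominators -/
lemma exists_bezout [IsGCDMonoid R] {P Q : Polynomial R} (hP : Irreducible P) (hd : P.natDegree ≠ 0)
    (hPQ : ¬ P ∣ Q) : ∃ (A B : Polynomial R) (d : R), d ≠ 0 ∧ A * P + B * Q = Polynomial.C d := by
  classical
  set K := FractionRing R
  have hinj : Function.Injective (algebraMap R K) := IsFractionRing.injective R K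
  have hprim := hP.isPrimitive hd
  have h1 : Irreducible (P.map (algebraMap R K)) :=
    (hprim.irreducible_iff_irreducible_map_fraction_map (K := K)).1 hP
  have h2 : IsCoprime (P.map (algebraMap R K)) (Q.map (algebraMap R K)) := by
    rw [h1.coprime_iff_not_dvd]
    intro hdvd
    apply hPQ
    obtain ⟨g, hg⟩ := hdvd
    have h3 : P.map (algebraMap R K) * g ∈ Polynomial.lifts (algebraMap R K) := ⟨Q, hg⟩
    obtain ⟨g', hg'⟩ := hprim.map_mul_mem_lifts_iff.1 h3
    refine ⟨g', Polynomial.map_injective _ hinj ?_⟩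
    have hg'' : g'.map (algebraMap R K) = g := hg'
    rw [Polynomial.map_mul, hg'', hg]
  obtain ⟨a, b, hab⟩ := h2
  obtain ⟨s, hs, hA⟩ := IsLocalization.integerNormalization_spec (nonZeroDivisors R) a
  obtain ⟨t, ht, hB⟩ := IsLocalization.integerNormalization_spec (nonZeroDivisors R) b
  set A := IsLocalization.integerNormalization (nonZeroDivisors R) a
  set B := IsLocalization.integerNormalization (nonZeroDivisors R) b
  refine ⟨Polynomial.C t * A, Polynomial.C s * B, s * t,
    mul_ne_zero (nonZeroDivisors.ne_zero hs) (nonZeroDivisors.ne_zero ht), ?_⟩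
  apply Polynomial.map_injective _ hinj
  rw [Polynomial.map_add, Polynomial.map_mul, Polynomial.map_mul, Polynomial.map_mul, Polynomial.map_mul,
    Polynomial.map_C, Polynomial.map_C, Polynomial.map_C, hA, hB, map_mul, Algebra.smul_def,
    Algebra.smul_def]
  have e : ∀ r : R, (algebraMap R (Polynomial K)) r = Polynomial.C (algebraMap R K r) := fun r => rfl
  rw [e, e, Polynomial.C_mul]
  linear_combination (Polynomial.C (algebraMap R K s) * Polynomial.C (algebraMap R K t)) * hab

/-- an irreducible polynomial does not divide its derivative -/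
lemma not_dvd_derivative [CharZero R] {P : Polynomial R} (hd : P.natDegree ≠ 0) :
    ¬ P ∣ P.derivative := by
  rintro h
  have h0 : P.derivative ≠ 0 := by
    intro h1
    exact hd (Polynomial.natDegree_eq_zero_of_derivative_eq_zero h1)
  have h1 := Polynomial.natDegree_le_of_dvd h h0
  have h2 := Polynomial.natDegree_derivative_lt hd
  omega

lemma derivative_finSucc (H : MvPolynomial (Fin 2) R) :
    finSuccEquiv R 1 (pderiv 0 H) = (finSuccEquiv R 1 H).derivative := by
  induction H using MvPolynomial.induction_on with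
  | C a => simp [finSuccEquiv_apply]
  | add p q hp hq => rw [map_add, map_add, map_add, hp, hq, Polynomial.derivative_add]
  | mul_X p i hp =>
    rw [Derivation.leibniz, map_add, smul_eq_mul, smul_eq_mul, map_mul, map_mul, map_mul,
      Polynomial.derivative_mul, hp]
    induction i using Fin.cases with
    | zero =>
      rw [pderiv_X_self, finSuccEquiv_X_zero, map_one, Polynomial.derivative_X]
      ring
    | succ j =>
      rw [pderiv_X_of_ne (Fin.succ_ne_zero j), finSuccEquiv_X_succ, map_zero, Polynomial.derivative_C]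
      ring

lemma symm_C (Δ : MvPolynomial (Fin 1) R) :
    (finSuccEquiv R 1).symm (Polynomial.C Δ) = rename Fin.succ Δ := by
  rw [AlgEquiv.symm_apply_eq]
  induction Δ using MvPolynomial.induction_on with
  | C a => simp [finSuccEquiv_apply]
  | add p q hp hq => rw [map_add, map_add, map_add, hp, hq]
  | mul_X p i hp =>
    rw [map_mul, map_mul, map_mul, hp, rename_X, finSuccEquiv_X_succ]

lemma rename_eq_aeval (Δ : MvPolynomial (Fin 1) R) :
    rename Fin.succ Δ = Polynomial.aeval (X 1 : MvPolynomial (Fin 2) R)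
      (aeval (fun _ => (Polynomial.X : Polynomial R)) Δ) := by
  induction Δ using MvPolynomial.induction_on with
  | C a =>
    simp only [algHom_C, Polynomial.algebraMap_apply, Algebra.algebraMap_self, RingHom.id_apply]
    rw [Polynomial.aeval_C]
  | add p q hp hq => rw [map_add, map_add, map_add, hp, hq]
  | mul_X p i hp =>
    rw [map_mul, map_mul, map_mul, hp, rename_X, aeval_X, Polynomial.aeval_X, Subsingleton.elim i 0]
    rfl

lemma exists_elim₀ [UniqueFactorizationMonoid R] {H G : MvPolynomial (Fin 2) R} (hH : Irreducible H)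
    (h0 : 0 < H.degreeOf 0) (hHG : ¬ H ∣ G) : ∃ (A B : MvPolynomial (Fin 2) R) (Δ : Polynomial R), Δ ≠ 0 ∧
      A * H + B * G = Polynomial.aeval (X 1 : MvPolynomial (Fin 2) R) Δ := by
  classical
  set P := finSuccEquiv R 1 H with hP
  have h1 : Irreducible P := (MulEquiv.irreducible_iff (finSuccEquiv R 1).toMulEquiv).2 hH
  have h2 : P.natDegree ≠ 0 := by
    rw [hP, natDegree_finSuccEquiv]
    exact h0.ne'
  have h3 : ¬ P ∣ finSuccEquiv R 1 G := by
    rintro ⟨Q, hQ⟩
    apply hHG
    refine ⟨(finSuccEquiv R 1).symm Q, ?_⟩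
    apply (finSuccEquiv R 1).injective
    rw [map_mul, AlgEquiv.apply_symm_apply, hQ]
  obtain ⟨A, B, d, hd, h3⟩ := exists_bezout h1 h2 h3
  refine ⟨(finSuccEquiv R 1).symm A, (finSuccEquiv R 1).symm B,
    aeval (fun _ => (Polynomial.X : Polynomial R)) d, fun h => ?_, ?_⟩
  · have h4 := rename_eq_aeval d
    rw [h, map_zero] at h4
    exact hd (rename_injective _ (Fin.succ_injective 1) (by rw [h4, map_zero]))
  · rw [← rename_eq_aeval, ← symm_C, ← h3, map_add, map_mul, map_mul, hP,
      AlgEquiv.symm_apply_apply, AlgEquiv.symm_apply_apply]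

lemma exists_sqf₀ [UniqueFactorizationMonoid R] [CharZero R] {H : MvPolynomial (Fin 2) R}
    (hH : Irreducible H) (h0 : 0 < H.degreeOf 0) :
    ∃ (A B : MvPolynomial (Fin 2) R) (Δ : Polynomial R), Δ ≠ 0 ∧
      A * H + B * pderiv 0 H = Polynomial.aeval (X 1 : MvPolynomial (Fin 2) R) Δ := by
  refine exists_elim₀ hH h0 ?_
  intro h
  have h2 : (finSuccEquiv R 1 H).natDegree ≠ 0 := by
    rw [natDegree_finSuccEquiv]
    exact h0.ne'
  apply not_dvd_derivative h2
  rw [← derivative_finSucc]
  exact map_dvd _ h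

/-- the exchange of the variables -/
noncomputable def swapV (R : Type) [CommRing R] : MvPolynomial (Fin 2) R ≃ₐ[R] MvPolynomial (Fin 2) R :=
  renameEquiv R (Equiv.swap 0 1)

lemma swapV_swapV (H : MvPolynomial (Fin 2) R) : swapV R (swapV R H) = H := by
  change rename _ (rename _ H) = H
  rw [rename_rename]
  have : (⇑(Equiv.swap (0 : Fin 2) 1) ∘ ⇑(Equiv.swap (0 : Fin 2) 1)) = id := by
    funext i
    simp
  rw [this, rename_id_apply]

lemma degreeOf_swapV (H : MvPolynomial (Fin 2) R) : (swapV R H).degreeOf 0 = H.degreeOf 1 := by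
  have := degreeOf_rename_of_injective (p := H) (Equiv.swap (0 : Fin 2) 1).injective 1
  rw [Equiv.swap_apply_right] at this
  exact this

lemma exists_elim₁ [UniqueFactorizationMonoid R] {H G : MvPolynomial (Fin 2) R} (hH : Irreducible H)
    (h1 : 0 < H.degreeOf 1) (hHG : ¬ H ∣ G) : ∃ (A B : MvPolynomial (Fin 2) R) (Δ : Polynomial R), Δ ≠ 0 ∧
      A * H + B * G = Polynomial.aeval (X 0 : MvPolynomial (Fin 2) R) Δ := by
  have h2 : Irreducible (swapV R H) := (MulEquiv.irreducible_iff (swapV R).toMulEquiv).2 hH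
  have h5 : ¬ swapV R H ∣ swapV R G := by
    rintro h
    apply hHG
    have := map_dvd (swapV R) h
    rwa [swapV_swapV, swapV_swapV] at this
  obtain ⟨A, B, Δ, hΔ, h4⟩ := exists_elim₀ h2 (by rw [degreeOf_swapV]; exact h1) h5
  refine ⟨swapV R A, swapV R B, Δ, hΔ, ?_⟩
  have h5 := congrArg (swapV R) h4
  rw [map_add, map_mul, map_mul, swapV_swapV, swapV_swapV] at h5
  rw [h5]
  have h8 := Polynomial.aeval_algHom_apply (swapV R : MvPolynomial (Fin 2) R →ₐ[R] MvPolynomial (Fin 2) R)
    (X 1 : MvPolynomial (Fin 2) R) Δ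
  have h9 : swapV R (X 1 : MvPolynomial (Fin 2) R) = X 0 := by
    change rename _ (X 1) = _
    rw [rename_X, Equiv.swap_apply_right]
  change Polynomial.aeval (swapV R (X 1)) Δ = swapV R (Polynomial.aeval (X 1) Δ) at h8
  rw [← h8, h9]

lemma exists_sqf₁ [UniqueFactorizationMonoid R] [CharZero R] {H : MvPolynomial (Fin 2) R}
    (hH : Irreducible H) (h1 : 0 < H.degreeOf 1) :
    ∃ (A B : MvPolynomial (Fin 2) R) (Δ : Polynomial R), Δ ≠ 0 ∧
      A * H + B * pderiv 1 H = Polynomial.aeval (X 0 : MvPolynomial (Fin 2) R) Δ := by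
  refine exists_elim₁ hH h1 ?_
  intro h
  have h2 : (finSuccEquiv R 1 (swapV R H)).natDegree ≠ 0 := by
    rw [natDegree_finSuccEquiv, degreeOf_swapV]
    exact h1.ne'
  apply not_dvd_derivative h2
  rw [← derivative_finSucc]
  have h6 : pderiv 0 (swapV R H) = swapV R (pderiv 1 H) := by
    have := pderiv_rename (R := R) (Equiv.swap (0 : Fin 2) 1).injective 1 H
    rw [Equiv.swap_apply_right] at this
    exact this
  rw [h6]
  exact map_dvd _ (map_dvd _ h)

end sqf

section bot
variable {R : Type} [CommRing R] [IsDomain R]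

lemma exists_top {H : MvPolynomial (Fin 2) R} (hH : H ≠ 0) (i : Fin 2) :
    ∃ m : Fin 2 →₀ ℕ, m i = H.degreeOf i ∧ H.coeff m ≠ 0 := by
  classical
  obtain ⟨m, hm, h⟩ := Finset.exists_mem_eq_sup H.support (support_nonempty.2 hH) fun m => m i
  refine ⟨m, ?_, mem_support_iff.1 hm⟩
  rw [degreeOf_eq_sup]
  exact h.symm

lemma exists_bot {H : MvPolynomial (Fin 2) R} (hH : Irreducible H) {i j : Fin 2} (hij : i ≠ j)
    (h1 : 0 < H.degreeOf j) : ∃ m : Fin 2 →₀ ℕ, m i = 0 ∧ H.coeff m ≠ 0 := by
  classical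
  by_contra hcon
  push Not at hcon
  have hdvd : (X i : MvPolynomial (Fin 2) R) ∣ H := by
    rw [H.as_sum]
    refine Finset.dvd_sum fun m hm => ?_
    rw [X_dvd_monomial]
    right
    intro h0
    exact mem_support_iff.1 hm (hcon m h0)
  obtain ⟨Q, hQ⟩ := hdvd
  have hX : ¬ IsUnit (X i : MvPolynomial (Fin 2) R) := by
    intro h
    obtain ⟨y, hy⟩ := h.exists_right_inv
    have h2 := congrArg (degreeOf i) hy
    have hy0 : y ≠ 0 := by
      rintro rfl
      simp at hy
    rw [degreeOf_mul_eq (X_ne_zero i) hy0, degreeOf_X, if_pos rfl, degreeOf_one] at h2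
    omega
  have hQu : IsUnit Q := (hH.2 hQ).resolve_left hX
  obtain ⟨y, hy⟩ := hQu.exists_right_inv
  have hQ0 : Q ≠ 0 := hQu.ne_zero
  have hy0 : y ≠ 0 := by
    rintro rfl
    simp at hy
  have h2 := congrArg (degreeOf j) hy
  rw [degreeOf_mul_eq hQ0 hy0, degreeOf_one] at h2
  rw [hQ, degreeOf_mul_eq (X_ne_zero i) hQ0, degreeOf_X, if_neg (Ne.symm hij)] at h1
  omega

end bot

end Pool.Agent.Helper69.AA
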