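import Pool.Agent.Helper69.AA.Coset
import Pool.Agent.Helper22.DL.Holds

/-! # The fibres of a family are good at almost all places -/

open MvPolynomial Finset

namespace Pool.Agent.Helper69.AA
open Pool.Agent.Helper20.DL Pool.Agent.Helper69.DL Pool.Agent.Helper22.DL

variable {σ : Type} {n : ℕ}

/-- the numerator of `H (z ^ a, z ^ b)` -/
noncomputable def numerS (H : MvPolynomial (Fin 2) (MvPolynomial σ ℤ)) (a b : Fin n → ℤ) :
    MvPolynomial (σ ⊕ Fin n) ℤ :=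
  ∑ m ∈ H.support, rename Sum.inl (H.coeff m) *
    ∏ i, X (Sum.inr i) ^ (a i * m 0 + b i * m 1 + den H.totalDegree a b i).toNat

lemma aeval_numerS (s : σ → ℂ) (H : MvPolynomial (Fin 2) (MvPolynomial σ ℤ)) (a b : Fin n → ℤ) {z : Fin n → ℂ}
    (hz : ∀ i, z i = 0 → 0 ≤ a i ∧ 0 ≤ b i) :
    aeval (Sum.elim s z) (numerS H a b) = (∏ i, z i ^ den H.totalDegree a b i) *
      evs s H (∏ i, z i ^ a i) (∏ i, z i ^ b i) := by
  classical
  unfold numerS
  rw [evs_eq_sum, map_sum, mul_sum]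
  refine sum_congr rfl fun m hm => ?_
  have hd : ∀ i, m i ≤ H.totalDegree := fun i => by
    refine le_trans ?_ (le_totalDegree hm)
    rw [Finsupp.sum]
    by_cases h : i ∈ m.support
    · exact single_le_sum (f := fun i => m i) (fun _ _ => Nat.zero_le _) h
    · rw [Finsupp.notMem_support_iff.1 h]
      exact Nat.zero_le _
  rw [map_mul, map_prod, aeval_rename, Sum.elim_comp_inl]
  have e : ∀ i, aeval (Sum.elim s z) ((X (Sum.inr i) : MvPolynomial (σ ⊕ Fin n) ℤ) ^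
      (a i * m 0 + b i * m 1 + den H.totalDegree a b i).toNat) =
      z i ^ den H.totalDegree a b i * ((z i ^ a i) ^ m 0 * (z i ^ b i) ^ m 1) := by
    intro i
    rw [map_pow, aeval_X, Sum.elim_inr]
    have h1 := den_nonneg (a := a) (b := b) (i := i) (hd 0) (hd 1)
    by_cases h0 : z i = 0
    · obtain ⟨ha, hb⟩ := hz i h0
      have hden : den H.totalDegree a b i = 0 := by
        unfold den
        rw [Int.toNat_of_nonpos (by linarith), Int.toNat_of_nonpos (by linarith)]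
        simp
      obtain ⟨a', ha'⟩ := Int.eq_ofNat_of_zero_le ha
      obtain ⟨b', hb'⟩ := Int.eq_ofNat_of_zero_le hb
      rw [hden, ha', hb']
      have e2 : ((a' : ℤ) * (m 0 : ℤ) + (b' : ℤ) * (m 1 : ℤ) + ((0 : ℕ) : ℤ)).toNat = a' * m 0 + b' * m 1 := by
        rw [show ((a' : ℤ) * (m 0 : ℤ) + (b' : ℤ) * (m 1 : ℤ) + ((0 : ℕ) : ℤ)) =
          ((a' * m 0 + b' * m 1 : ℕ) : ℤ) by push_cast; ring, Int.toNat_natCast]
      rw [e2, pow_zero, one_mul, zpow_natCast, zpow_natCast, pow_add, pow_mul, pow_mul]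
    · have e2 : z i ^ (a i * m 0 + b i * m 1 + den H.totalDegree a b i).toNat =
          z i ^ (a i * m 0 + b i * m 1 + (den H.totalDegree a b i : ℤ)) := by
        rw [← zpow_natCast, Int.toNat_of_nonneg h1]
      rw [e2, zpow_add₀ h0, zpow_add₀ h0, zpow_mul, zpow_mul, zpow_natCast, zpow_natCast, zpow_natCast]
      ring
  rw [prod_congr rfl fun i _ => e i, prod_mul_distrib, prod_mul_distrib, prod_pow, prod_pow]
  ring

lemma ev_map (s : σ → ℤ) (H : MvPolynomial (Fin 2) (MvPolynomial σ ℤ)) (x y : ℂ) :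
    ev (map (eval s) H) x y = evs (fun κ => (s κ : ℂ)) H x y := by
  rw [ev_eq_aeval, evs, aeval_def, eval₂_map]
  congr 1
  refine RingHom.ext fun a => ?_
  change algebraMap ℤ ℂ (eval s a) = aeval (fun κ => (s κ : ℂ)) a
  rw [aeval_def, ← eval₂_id]
  have := hom_eval₂ a (RingHom.id ℤ) (algebraMap ℤ ℂ) s
  rw [RingHom.comp_id] at this
  exact this

/-- **Holds** on the fibres -/
theorem holds_fib {ss : σ → ℂ} {zs : Fin n → ℂ} (hz0 : ∀ i, zs i ≠ 0)
    {H : MvPolynomial (Fin 2) (MvPolynomial σ ℤ)} {a b : Fin n → ℤ}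
    (h : evs ss H (∏ i, zs i ^ a i) (∏ i, zs i ^ b i) = 0) (s : σ → ℤ) :
    Holds (map (eval s) H) (fib ss zs fun κ => (s κ : ℂ)) a b := by
  intro z hz hz2
  have h1 := hz (numerS H a b) (by
    rw [aeval_numerS ss H a b (fun i hi => absurd hi (hz0 i)), h, mul_zero])
  rw [aeval_numerS _ H a b hz2] at h1
  rw [ev_map]
  refine (mul_eq_zero.1 h1).resolve_left ?_
  rw [← ne_eq, prod_ne_zero_iff]
  intro i _
  by_cases h0 : z i = 0
  · obtain ⟨ha, hb⟩ := hz2 i h0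
    have hden : den H.totalDegree a b i = 0 := by
      unfold den
      rw [Int.toNat_of_nonpos (by linarith), Int.toNat_of_nonpos (by linarith)]
      simp
    rw [hden, pow_zero]
    exact one_ne_zero
  · exact pow_ne_zero _ h0

/-- the statements F1, F2 on the generic point -/
structure GenRel (ss : σ → ℂ) (zs : Fin n → ℂ) : Prop where
  /-- the monomials are transcendental -/
  tr : ∀ (c : Fin n → ℤ) (k : Fin n), c k ≠ 0 →
    Transcendental (Algebra.adjoin ℤ (Set.range ss)) (∏ i, zs i ^ c i)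
  /-- the relation of two monomials -/
  rel : ∀ a b : Fin n → ℤ, (∀ s t : ℤ, (∀ i, s * a i + t * b i = 0) → s = 0 ∧ t = 0) →
    ∃ H : MvPolynomial (Fin 2) (MvPolynomial σ ℤ), Irreducible H ∧ 0 < H.degreeOf 0 ∧ 0 < H.degreeOf 1 ∧
      evs ss H (∏ i, zs i ^ a i) (∏ i, zs i ^ b i) = 0 ∧
      ∀ x y : ℂ, evs ss H x y = 0 → (Transcendental (Algebra.adjoin ℤ (Set.range ss)) x ∨
        Transcendental (Algebra.adjoin ℤ (Set.range ss)) y) →
          ∀ G : MvPolynomial (Fin 2) (MvPolynomial σ ℤ), evs ss G x y = 0 → H ∣ G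

lemma v_aeval_int {v : AbsoluteValue ℂ ℝ} (hv : IsNonarchimedean v) {p : ℕ} (hp : p.Prime)
    (hvp : v (p : ℂ) < 1) {P : MvPolynomial σ ℤ} {s : σ → ℤ} (h : ¬ (p : ℤ) ∣ eval s P) :
    v (aeval (fun κ => (s κ : ℂ)) P) = 1 := by
  have h1 : aeval (fun κ => (s κ : ℂ)) P = ((eval s P : ℤ) : ℂ) := by
    rw [aeval_def, ← eval₂_id]
    have := hom_eval₂ P (RingHom.id ℤ) (algebraMap ℤ ℂ) s
    rw [RingHom.comp_id] at this
    exact this.symm
  rw [h1]
  exact v_int_eq_one hv hp hvp h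

/-- **the fibres of a family are good at almost all places** -/
theorem good_of_genRel {ss : σ → ℂ} {zs : Fin n → ℂ} (hF : Family ss zs) (hG : GenRel ss zs) :
    ∃ P : MvPolynomial σ ℤ, P ≠ 0 ∧ ∀ (s : σ → ℤ) (p : ℕ), p.Prime → ¬ (p : ℤ) ∣ eval s P →
      ∀ v : AbsoluteValue ℂ ℝ, IsNonarchimedean v → v (p : ℂ) < 1 →
        LocalGood v p (fib ss zs fun κ => (s κ : ℂ)) := by
  classical
  have hz0 : ∀ i, zs i ≠ 0 := fun i h => hF.tr i (h ▸ isAlgebraic_zero)
  obtain ⟨P₀, hP₀, hcor⟩ := hF.corner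
  -- one pair of exponents
  have key : ∀ a b : Fin n → ℤ, ∃ P : MvPolynomial σ ℤ, P ≠ 0 ∧
      ((∀ s t : ℤ, (∀ i, s * a i + t * b i = 0) → s = 0 ∧ t = 0) → ∀ (s : σ → ℤ) (p : ℕ), p.Prime →
        ¬ (p : ℤ) ∣ eval s P → ∀ v : AbsoluteValue ℂ ℝ, IsNonarchimedean v → v (p : ℂ) < 1 →
          ∃ H : MvPolynomial (Fin 2) ℤ, Holds H (fib ss zs fun κ => (s κ : ℂ)) a b ∧ GoodRel v p H) := by
    intro a b
    by_cases hab : ∀ s t : ℤ, (∀ i, s * a i + t * b i = 0) → s = 0 ∧ t = 0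
    · obtain ⟨H, hH, h0, h1, hxy, hK⟩ := hG.rel a b hab
      have hx0 : ∏ i, zs i ^ a i ≠ 0 := prod_ne_zero_iff.2 fun i _ => zpow_ne_zero _ (hz0 i)
      have hy0 : ∏ i, zs i ^ b i ≠ 0 := prod_ne_zero_iff.2 fun i _ => zpow_ne_zero _ (hz0 i)
      have hnc : NoCosetGen ss H := by
        refine noCosetGen_of hF.indep hx0 hy0 hxy (fun s t hst => ?_) hK
        obtain ⟨k, hk⟩ : ∃ k, s * a k + t * b k ≠ 0 := by
          by_contra hcon
          push Not at hcon
          obtain ⟨h2, h3⟩ := hab s t hcon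
          rcases hst with h | h
          · exact h h2
          · exact h h3
        have h2 := hG.tr (fun i => s * a i + t * b i) k hk
        have h3 : ∏ i, zs i ^ (s * a i + t * b i) = (∏ i, zs i ^ a i) ^ s * (∏ i, zs i ^ b i) ^ t := by
          rw [← prod_zpow, ← prod_zpow, ← prod_mul_distrib]
          refine prod_congr rfl fun i _ => ?_
          rw [zpow_add₀ (hz0 i), mul_comm s, mul_comm t, zpow_mul, zpow_mul]
        rwa [h3] at h2
      obtain ⟨P, hP, h2⟩ := spread hF.indep hH h0 h1 hnc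
      exact ⟨P, hP, fun _ s p hp hpP v hv hvp => ⟨map (eval s) H, holds_fib hz0 hxy s, h2 s p hp hpP v hv hvp⟩⟩
    · exact ⟨1, one_ne_zero, fun h => absurd h hab⟩
  choose P hP hkey using key
  set T : Finset (Fin n → ℤ) := Fintype.piFinset fun _ => Finset.Icc (-1) 1 with hT
  refine ⟨P₀ * ∏ q ∈ T ×ˢ T, P q.1 q.2, mul_ne_zero hP₀ (prod_ne_zero_iff.2 fun q _ => hP _ _), ?_⟩
  intro s p hp hpP v hv hvp
  rw [map_mul] at hpP
  have h1 : ¬ (p : ℤ) ∣ eval s P₀ := fun h => hpP (h.mul_right _)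
  have h2 : ¬ (p : ℤ) ∣ eval s (∏ q ∈ T ×ˢ T, P q.1 q.2) := fun h => hpP (h.mul_left _)
  refine ⟨fun z hz => hcor v hv _ z hz (fun κ => hv.apply_intCast_le_one) (v_aeval_int hv hp hvp h1), ?_⟩
  intro a b ha hb hab
  refine hkey a b hab s p hp (fun h => h2 (h.trans (map_dvd (eval s) ?_))) v hv hvp
  have hmem : (a, b) ∈ T ×ˢ T := by
    rw [mem_product, hT, Fintype.mem_piFinset, Fintype.mem_piFinset]
    exact ⟨fun i => mem_Icc.2 (abs_le.1 (ha i)), fun i => mem_Icc.2 (abs_le.1 (hb i))⟩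
  exact Finset.dvd_prod_of_mem (fun q : (Fin n → ℤ) × (Fin n → ℤ) => P q.1 q.2) hmem

end Pool.Agent.Helper69.AA
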