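import Pool.Agent.Helper36.DL.Unif

/-! # Families of curves: interfaces -/

open MvPolynomial

namespace Pool.Agent.Helper69.AA
open Pool.Agent.Helper11.ZP Pool.Agent.Helper20.DL Pool.Agent.Helper69.DL Pool.Agent.Helper36.DL

variable {σ : Type} {n : ℕ}

/-- the value at `(x, y)` of `H ∈ ℤ[s][X, Y]` for the parameters `s` -/
noncomputable def evs (s : σ → ℂ) (H : MvPolynomial (Fin 2) (MvPolynomial σ ℤ)) (x y : ℂ) : ℂ :=
  eval₂ (aeval s : MvPolynomial σ ℤ →ₐ[ℤ] ℂ).toRingHom ![x, y] H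

/-- the fibre over `s` of the family of curves with the generic point `(ss, zs)` -/
def fib (ss : σ → ℂ) (zs : Fin n → ℂ) (s : σ → ℂ) : Set (Fin n → ℂ) :=
  {z | ∀ F : MvPolynomial (σ ⊕ Fin n) ℤ, aeval (Sum.elim ss zs) F = 0 → aeval (Sum.elim s z) F = 0}

/-- the generic point `(ss, zs)` of a family of curves in general position -/
structure Family (ss : σ → ℂ) (zs : Fin n → ℂ) : Prop where
  /-- the parameters are independent -/
  indep : AlgebraicIndependent ℤ ss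
  /-- no coordinate is constant -/
  tr : ∀ i, Transcendental (Algebra.adjoin ℤ (Set.range ss)) (zs i)
  /-- the fibres are curves -/
  alg : ∀ i j, IsAlgebraic (Algebra.adjoin ℤ (Set.range ss ∪ {zs i})) (zs j)
  /-- at most one coordinate is `0` or `∞` -/
  corner : ∃ P : MvPolynomial σ ℤ, P ≠ 0 ∧ ∀ v : AbsoluteValue ℂ ℝ, IsNonarchimedean v →
    ∀ (s : σ → ℂ) (z : Fin n → ℂ), z ∈ fib ss zs s → (∀ κ, v (s κ) ≤ 1) → v (aeval s P) = 1 →
      ∀ i j, i ≠ j → v (z i) = 1 ∨ v (z j) = 1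

/-- no coset factor over the algebraic closure of `ℚ(ss)` -/
def NoCosetGen (ss : σ → ℂ) (H : MvPolynomial (Fin 2) (MvPolynomial σ ℤ)) : Prop :=
  ∀ x y : ℂ, x ≠ 0 → y ≠ 0 → IsAlgebraic (Algebra.adjoin ℤ (Set.range ss)) x →
    IsAlgebraic (Algebra.adjoin ℤ (Set.range ss)) y → ∀ u w : ℤ, ¬ (u = 0 ∧ w = 0) → ∃ e : ℤ,
      ∑ m ∈ H.support with u * m 0 + w * m 1 = e, aeval ss (H.coeff m) * x ^ m 0 * y ^ m 1 ≠ 0

/-- what is known at the place `v` on the set `Z`: at each point at most one coordinate is not a unit; the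
relations between the monomials with exponents in `{-1, 0, 1}` are good -/
structure LocalGood (v : AbsoluteValue ℂ ℝ) (p : ℕ) (Z : Set (Fin n → ℂ)) : Prop where
  /-- at most one coordinate is not a unit -/
  corner : ∀ z ∈ Z, ∀ i j, i ≠ j → v (z i) = 1 ∨ v (z j) = 1
  /-- the relations -/
  rel : ∀ a b : Fin n → ℤ, (∀ i, |a i| ≤ 1) → (∀ i, |b i| ≤ 1) →
    (∀ s t : ℤ, (∀ i, s * a i + t * b i = 0) → s = 0 ∧ t = 0) →
      ∃ H : MvPolynomial (Fin 2) ℤ, Holds H Z a b ∧ GoodRel v p H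

end Pool.Agent.Helper69.AA
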