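import Pool.Agent.Helper69.AA.Spread

/-! # No coset factor over the function field of the parameters -/

open MvPolynomial

namespace Pool.Agent.Helper69.AA

variable {σ : Type}

lemma evs_eq_sum (s : σ → ℂ) (H : MvPolynomial (Fin 2) (MvPolynomial σ ℤ)) (x y : ℂ) :
    evs s H x y = ∑ m ∈ H.support, aeval s (H.coeff m) * x ^ m 0 * y ^ m 1 := by
  have h := ev_parts s H x y H.support
  rw [← H.as_sum] at h
  exact h

lemma evs_mul (s : σ → ℂ) (H G : MvPolynomial (Fin 2) (MvPolynomial σ ℤ)) (x y : ℂ) :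
    evs s (H * G) x y = evs s H x y * evs s G x y := by
  rw [evs, evs, evs, eval₂_mul]

lemma evs_add (s : σ → ℂ) (H G : MvPolynomial (Fin 2) (MvPolynomial σ ℤ)) (x y : ℂ) :
    evs s (H + G) x y = evs s H x y + evs s G x y := by
  rw [evs, evs, evs, eval₂_add]

/-- a polynomial over the parameter ring -/
lemma exists_poly {ss : σ → ℂ} (hind : AlgebraicIndependent ℤ ss) {x : ℂ}
    (hx : IsAlgebraic (Algebra.adjoin ℤ (Set.range ss)) x) :
    ∃ g : Polynomial (MvPolynomial σ ℤ), g ≠ 0 ∧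
      Polynomial.eval₂ (aeval ss : MvPolynomial σ ℤ →ₐ[ℤ] ℂ).toRingHom x g = 0 := by
  let e := hind.aevalEquiv
  obtain ⟨p, hp, hpx⟩ := hx
  refine ⟨p.map e.symm.toRingEquiv.toRingHom, ?_, ?_⟩
  · rw [Ne, Polynomial.map_eq_zero_iff e.symm.injective]
    exact hp
  · rw [Polynomial.eval₂_map, ← hpx, Polynomial.aeval_def]
    congr 1
    ext a
    change aeval ss (e.symm a) = (a : ℂ)
    have h := hind.algebraMap_aevalEquiv (e.symm a)
    rw [AlgEquiv.apply_symm_apply] at h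
    exact h.symm

section zpow
variable {A : Type} [CommRing A] [IsDomain A] [Algebra A ℂ]

lemma isAlgebraic_zpow {x : ℂ} (hx : IsAlgebraic A x) (k : ℤ) : IsAlgebraic A (x ^ k) := by
  rcases Int.eq_nat_or_neg k with ⟨m, h | h⟩
  · rw [h, zpow_natCast]
    exact hx.pow m
  · rw [h, zpow_neg, zpow_natCast]
    exact (hx.pow m).inv

omit [IsDomain A] in
lemma isAlgebraic_of_zpow {x : ℂ} {k : ℤ} (hk : k ≠ 0) (hx : IsAlgebraic A (x ^ k)) : IsAlgebraic A x := by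
  rcases Int.eq_nat_or_neg k with ⟨m, h | h⟩
  · rw [h, zpow_natCast] at hx
    exact hx.of_pow (by omega)
  · rw [h, zpow_neg, zpow_natCast] at hx
    have h2 := hx.inv
    rw [inv_inv] at h2
    exact h2.of_pow (by omega)

end zpow

/-- a relation `g (x ^ w y ^ (-u)) = 0` as a polynomial relation -/
lemma exists_numer (ss : σ → ℂ) (g : Polynomial (MvPolynomial σ ℤ)) (u w : ℤ) :
    ∃ (G : MvPolynomial (Fin 2) (MvPolynomial σ ℤ)) (a b : ℕ), ∀ x y : ℂ, x ≠ 0 → y ≠ 0 →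
      evs ss G x y = x ^ a * y ^ b *
        Polynomial.eval₂ (aeval ss : MvPolynomial σ ℤ →ₐ[ℤ] ℂ).toRingHom (x ^ w * y ^ (-u)) g := by
  classical
  set d := g.natDegree with hd
  set a := w.natAbs * d with ha
  set b := u.natAbs * d with hb
  let e : ℕ → (Fin 2 →₀ ℕ) := fun j => Finsupp.equivFunOnFinite.symm ![(w * j + a).toNat, (-u * j + b).toNat]
  refine ⟨∑ j ∈ Finset.range (d + 1), monomial (e j) (g.coeff j), a, b, fun x y hx hy => ?_⟩
  rw [evs, ← coe_eval₂Hom, map_sum, Polynomial.eval₂_eq_sum_range, Finset.mul_sum]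
  refine Finset.sum_congr rfl fun j hj => ?_
  have hjd : (j : ℤ) ≤ d := by
    rw [Finset.mem_range] at hj
    omega
  have h1 : 0 ≤ w * j + a := by
    have h2 : -(w.natAbs : ℤ) ≤ w := by omega
    have h3 : (0 : ℤ) ≤ j := by positivity
    have h4 : (a : ℤ) = w.natAbs * d := by rw [ha]; push_cast; ring
    have h5 : (0 : ℤ) ≤ w.natAbs := Int.natCast_nonneg _
    nlinarith [mul_nonneg h5 (sub_nonneg.2 hjd), mul_nonneg (show (0 : ℤ) ≤ w + w.natAbs by linarith) h3]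
  have h2 : 0 ≤ -u * j + b := by
    have h2 : -(u.natAbs : ℤ) ≤ -u := by omega
    have h3 : (0 : ℤ) ≤ j := by positivity
    have h4 : (b : ℤ) = u.natAbs * d := by rw [hb]; push_cast; ring
    have h5 : (0 : ℤ) ≤ u.natAbs := Int.natCast_nonneg _
    nlinarith [mul_nonneg h5 (sub_nonneg.2 hjd), mul_nonneg (show (0 : ℤ) ≤ -u + u.natAbs by linarith) h3]
  rw [coe_eval₂Hom, eval₂_monomial, Finsupp.prod_fintype _ _ (fun i => pow_zero _), Fin.prod_univ_two]
  have e0 : (e j) 0 = (w * j + a).toNat := rfl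
  have e1 : (e j) 1 = (-u * j + b).toNat := rfl
  rw [e0, e1]
  have z0 : x ^ (w * j + a).toNat = (x ^ w) ^ j * x ^ a := by
    rw [← zpow_natCast, Int.toNat_of_nonneg h1, zpow_add₀ hx, zpow_mul, zpow_natCast, zpow_natCast]
  have z1 : y ^ (-u * j + b).toNat = (y ^ (-u)) ^ j * y ^ b := by
    rw [← zpow_natCast, Int.toNat_of_nonneg h2, zpow_add₀ hy, zpow_mul, zpow_natCast, zpow_natCast]
  simp only [Matrix.cons_val_zero, Matrix.cons_val_one]
  rw [z0, z1, mul_pow]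
  ring

/-- **no coset factor** -/
theorem noCosetGen_of {ss : σ → ℂ} (hind : AlgebraicIndependent ℤ ss)
    {H : MvPolynomial (Fin 2) (MvPolynomial σ ℤ)} {x₁ y₁ : ℂ} (hx₁ : x₁ ≠ 0) (hy₁ : y₁ ≠ 0)
    (hxy : evs ss H x₁ y₁ = 0)
    (hT : ∀ s t : ℤ, (s ≠ 0 ∨ t ≠ 0) → Transcendental (Algebra.adjoin ℤ (Set.range ss)) (x₁ ^ s * y₁ ^ t))
    (hK : ∀ x y : ℂ, evs ss H x y = 0 → (Transcendental (Algebra.adjoin ℤ (Set.range ss)) x ∨
      Transcendental (Algebra.adjoin ℤ (Set.range ss)) y) →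
        ∀ G : MvPolynomial (Fin 2) (MvPolynomial σ ℤ), evs ss G x y = 0 → H ∣ G) : NoCosetGen ss H := by
  classical
  intro x y hx hy hxa hya u w huw
  by_contra hcon
  push Not at hcon
  have hτ : Transcendental (Algebra.adjoin ℤ (Set.range ss)) x₁ := by
    have := hT 1 0 (Or.inl one_ne_zero)
    rwa [zpow_one, zpow_zero, mul_one] at this
  -- the point on the curve
  have hzero : evs ss H (x * x₁ ^ u) (y * x₁ ^ w) = 0 := by
    rw [evs_eq_sum]
    have h1 : ∀ m ∈ H.support, aeval ss (H.coeff m) * (x * x₁ ^ u) ^ m 0 * (y * x₁ ^ w) ^ m 1 =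
        x₁ ^ (u * m 0 + w * m 1) * (aeval ss (H.coeff m) * x ^ m 0 * y ^ m 1) := by
      intro m _
      rw [zpow_add₀ hx₁, zpow_mul, zpow_mul, zpow_natCast, zpow_natCast, mul_pow, mul_pow]
      ring
    rw [Finset.sum_congr rfl h1, ← Finset.sum_fiberwise_of_maps_to
      (g := fun m : Fin 2 →₀ ℕ => u * (m 0 : ℤ) + w * m 1)
      (t := H.support.image fun m : Fin 2 →₀ ℕ => u * (m 0 : ℤ) + w * m 1)
      fun m hm => Finset.mem_image_of_mem _ hm]
    refine Finset.sum_eq_zero fun e _ => ?_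
    have h2 : ∑ m ∈ H.support with u * (m 0 : ℤ) + w * m 1 = e,
        x₁ ^ (u * (m 0 : ℤ) + w * m 1) * (aeval ss (H.coeff m) * x ^ m 0 * y ^ m 1) =
        x₁ ^ e * ∑ m ∈ H.support with u * (m 0 : ℤ) + w * m 1 = e,
          aeval ss (H.coeff m) * x ^ m 0 * y ^ m 1 := by
      rw [Finset.mul_sum]
      refine Finset.sum_congr rfl fun m hm => ?_
      rw [(Finset.mem_filter.1 hm).2]
    rw [h2, hcon e, mul_zero]
  have hX0 : x * x₁ ^ u ≠ 0 := mul_ne_zero hx (zpow_ne_zero _ hx₁)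
  have hY0 : y * x₁ ^ w ≠ 0 := mul_ne_zero hy (zpow_ne_zero _ hx₁)
  have htr : ∀ {z : ℂ} {k : ℤ}, z ≠ 0 → IsAlgebraic (Algebra.adjoin ℤ (Set.range ss)) z → k ≠ 0 →
      Transcendental (Algebra.adjoin ℤ (Set.range ss)) (z * x₁ ^ k) := by
    intro z k hz hza hk halg
    apply hτ
    refine isAlgebraic_of_zpow hk ?_
    have h2 : x₁ ^ k = z⁻¹ * (z * x₁ ^ k) := by field_simp
    rw [h2]
    exact hza.inv.mul halg
  have hor : Transcendental (Algebra.adjoin ℤ (Set.range ss)) (x * x₁ ^ u) ∨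
      Transcendental (Algebra.adjoin ℤ (Set.range ss)) (y * x₁ ^ w) := by
    by_cases hu : u = 0
    · exact Or.inr (htr hy hya fun hw => huw ⟨hu, hw⟩)
    · exact Or.inl (htr hx hxa hu)
  -- the constant of the coset
  have hc : IsAlgebraic (Algebra.adjoin ℤ (Set.range ss)) (x ^ w * y ^ (-u)) :=
    (isAlgebraic_zpow hxa w).mul (isAlgebraic_zpow hya (-u))
  obtain ⟨g, hg, hg0⟩ := exists_poly hind hc
  obtain ⟨G, a, b, hG⟩ := exists_numer ss g u w
  have h3 : (x * x₁ ^ u) ^ w * (y * x₁ ^ w) ^ (-u) = x ^ w * y ^ (-u) := by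
    rw [mul_zpow, mul_zpow, ← zpow_mul, ← zpow_mul, show w * -u = -(u * w) by ring, zpow_neg x₁ (u * w)]
    have : x₁ ^ (u * w) ≠ 0 := zpow_ne_zero _ hx₁
    field_simp
  have h4 : evs ss G (x * x₁ ^ u) (y * x₁ ^ w) = 0 := by
    rw [hG _ _ hX0 hY0, h3, hg0, mul_zero]
  obtain ⟨Q, rfl⟩ := hK _ _ hzero hor G h4
  have h5 := hG x₁ y₁ hx₁ hy₁
  rw [evs_mul, hxy, zero_mul] at h5
  have h6 := (mul_eq_zero.1 h5.symm).resolve_left (mul_ne_zero (pow_ne_zero _ hx₁) (pow_ne_zero _ hy₁))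
  have h7 : w ≠ 0 ∨ -u ≠ 0 := by
    by_cases hw : w = 0
    · right
      intro hu
      exact huw ⟨neg_eq_zero.1 hu, hw⟩
    · exact Or.inl hw
  exact hT w (-u) h7 (isAlgebraic_adjoin hind hg h6)

end Pool.Agent.Helper69.AA
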