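import Pool.Agent.Helper36.DL.BoxSum

/-! # Density of the rational vectors with a prime of bounded size in the denominator -/

open Finset Filter MvPolynomial

namespace Pool.Agent.Helper69.AA
open Pool.Agent.Helper20.ZT Pool.Agent.Helper36.DL Pool.Agent.Helper81.DL

open Classical in
/-- the pairs (denominator, numerators) -/
theorem pairs_eps {n : ℕ} (p₀ : ℕ) (G₀ : ℕ → Set (Fin n → ℤ))
    (hcnt : ∀ p : ℕ, p.Prime → p₀ ≤ p → ((p : ℝ) ^ 2) ^ n / 2 ≤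
      (Set.ncard {u | (∀ i, 0 ≤ u i ∧ u i < (p : ℤ) ^ 2) ∧ u ∈ G₀ p} : ℝ)) {ε : ℝ} (hε : 0 < ε) :
    ∃ p₁ : ℕ, ∀ Good : ℤ → (Fin n → ℤ) → Prop,
    (∀ (q : ℤ) (b : Fin n → ℤ) (p : ℕ) (q' : ℤ) (u : Fin n → ℤ), p.Prime → p₀ ≤ p → p ≤ p₁ → 0 < q →
      q = p * q' → ¬ (p : ℤ) ∣ q' → (∀ i, (p : ℤ) ^ 2 ∣ b i - q' * u i) → u ∈ G₀ p → Good q b) →
    ∀ᶠ H : ℕ in atTop,
      ((((Icc (1 : ℤ) H) ×ˢ (Fintype.piFinset fun _ : Fin n => Icc (-(H : ℤ)) H)).filter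
        (fun v => ¬ Good v.1 v.2)).card : ℝ) /
      ((((Icc (1 : ℤ) H) ×ˢ (Fintype.piFinset fun _ : Fin n => Icc (-(H : ℤ)) H)).card : ℝ)) < ε := by
  obtain ⟨S, hS, hS', hlt⟩ := exists_prod_lt p₀ ε hε
  refine ⟨S.sup id, fun Good hG₀ => ?_⟩
  set G : ℕ → Set (Fin n → ℤ) := fun p => {u | p ≤ S.sup id ∧ u ∈ G₀ p} with hGdef
  have hG : ∀ (q : ℤ) (b : Fin n → ℤ) (p : ℕ) (q' : ℤ) (u : Fin n → ℤ), p.Prime → p₀ ≤ p → 0 < q →
      q = p * q' → ¬ (p : ℤ) ∣ q' → (∀ i, (p : ℤ) ^ 2 ∣ b i - q' * u i) → u ∈ G p → Good q b :=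
    fun q b p q' u h1 h2 h3 h4 h5 h6 h7 => hG₀ q b p q' u h1 h2 h7.1 h3 h4 h5 h6 h7.2
  have hcnt' : ∀ p ∈ S, ((p : ℝ) ^ 2) ^ n / 2 ≤
      (Set.ncard {u | (∀ i, 0 ≤ u i ∧ u i < (p : ℤ) ^ 2) ∧ u ∈ G p} : ℝ) := by
    intro p hp
    have h1 := hcnt p (hS p hp) (hS' p hp)
    have h2 : {u | (∀ i, 0 ≤ u i ∧ u i < (p : ℤ) ^ 2) ∧ u ∈ G p} =
        {u | (∀ i, 0 ≤ u i ∧ u i < (p : ℤ) ^ 2) ∧ u ∈ G₀ p} := by
      ext u
      have h3 : p ≤ S.sup id := Finset.le_sup (f := id) hp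
      simp [hGdef, h3]
    rw [h2]
    exact h1
  -- the cardinality of the box
  have hbox : ∀ H : ℕ, ((((Icc (1 : ℤ) H) ×ˢ
      (Fintype.piFinset fun _ : Fin n => Icc (-(H : ℤ)) H)).card : ℕ) : ℝ) =
      H * (2 * H + 1) ^ n := by
    intro H
    rw [card_product, Fintype.card_piFinset, prod_const, card_univ, Fintype.card_fin,
      Int.card_Icc, Int.card_Icc]
    have e1 : ((H : ℤ) + 1 - 1).toNat = H := by omega
    have e2 : ((H : ℤ) + 1 - -(H : ℤ)).toNat = 2 * H + 1 := by omega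
    rw [e1, e2]
    push_cast
    ring
  set M₃ : ℕ := ∏ p : S, (p : ℕ) ^ 3 with hM₃
  set M₂ : ℕ := ∏ p : S, (p : ℕ) ^ 2 with hM₂
  have h₃ : 0 < M₃ := prod_pos fun p _ => pow_pos (hS p p.2).pos _
  have h₂ : 0 < M₂ := prod_pos fun p _ => pow_pos (hS p p.2).pos _
  have : NeZero M₃ := ⟨h₃.ne'⟩
  have : NeZero M₂ := ⟨h₂.ne'⟩
  set R : Finset (ZMod M₃ × (Fin n → ZMod M₂)) :=
    univ.filter (fun r => ∀ p : S, red p r ∉ EE G p) with hR
  have hRc : (R.card : ℝ) ≤ (M₃ : ℝ) * (M₂ : ℝ) ^ n * ∏ p ∈ S, (1 - 1 / (4 * (p : ℝ))) := by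
    have := card_bad_le hS G hcnt'
    refine le_trans (le_of_eq ?_) this
    rw [← Set.ncard_coe_finset]
    congr 2
    rw [hR, Finset.coe_filter]
    simp only [mem_univ, true_and]
    rfl
  -- upper bound for the number of bad points
  have hub : ∀ H : ℕ, ((((Icc (1 : ℤ) H) ×ˢ
      (Fintype.piFinset fun _ : Fin n => Icc (-(H : ℤ)) H)).filter
      (fun v => ¬ Good v.1 v.2)).card : ℝ) ≤
      R.card * (((H : ℝ) / M₃ + 1) * ((2 * H + 1 : ℝ) / M₂ + 1) ^ n) := by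
    intro H
    refine le_trans ?_ (box_count M₃ M₂ h₃ h₂ R H)
    apply Nat.cast_le.2
    apply card_le_card
    intro v hv
    rw [mem_filter] at hv ⊢
    refine ⟨hv.1, ?_⟩
    rw [hR, mem_filter]
    refine ⟨mem_univ _, fun p hp => hv.2 ?_⟩
    have hq : 0 < v.1 := by
      have := (mem_Icc.1 (mem_product.1 hv.1).1).1
      omega
    apply good_of_mem hG (hS p p.2) (hS' p p.2) hq
    have e : red p (((v.1 : ZMod M₃), (fun i => (v.2 i : ZMod M₂))) :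
        ZMod M₃ × (Fin n → ZMod M₂)) = (((v.1 : ZMod ((p : ℕ) ^ 3)),
        (fun i => (v.2 i : ZMod ((p : ℕ) ^ 2))))) := by
      simp only [red, map_intCast]
    rw [← e]
    exact hp
  -- the limit
  have hlim : Tendsto (fun H : ℕ => (R.card * (((H : ℝ) / M₃ + 1) *
      ((2 * H + 1 : ℝ) / M₂ + 1) ^ n)) / (H * (2 * H + 1 : ℝ) ^ n)) atTop
      (nhds (R.card / (M₃ * (M₂ : ℝ) ^ n))) := by
    have t1 : Tendsto (fun H : ℕ => (1 : ℝ) / M₃ + 1 / (H : ℝ)) atTop (nhds (1 / M₃ + 0)) :=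
      tendsto_const_nhds.add tendsto_one_div_atTop_nhds_zero_nat
    have t2 : Tendsto (fun H : ℕ => (1 : ℝ) / (2 * H + 1 : ℝ)) atTop (nhds 0) := by
      have := (tendsto_one_div_atTop_nhds_zero_nat (𝕜 := ℝ)).comp
        (tendsto_atTop_mono (f := fun n : ℕ => n) (g := fun n : ℕ => 2 * n + 1)
          (fun n => by omega) tendsto_id)
      refine this.congr fun H => ?_
      simp
    have t3 : Tendsto (fun H : ℕ => ((1 : ℝ) / M₂ + 1 / (2 * H + 1 : ℝ)) ^ n) atTop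
        (nhds ((1 / M₂ + 0) ^ n)) := (tendsto_const_nhds.add t2).pow n
    have t4 := (t1.mul t3).const_mul (R.card : ℝ)
    have e : (R.card : ℝ) * ((1 / M₃ + 0) * (1 / (M₂ : ℝ) + 0) ^ n) =
        R.card / (M₃ * (M₂ : ℝ) ^ n) := by
      rw [add_zero, add_zero, one_div_pow]
      field_simp
    rw [e] at t4
    refine t4.congr' ?_
    filter_upwards [eventually_gt_atTop 0] with H hH
    have hH' : (0 : ℝ) < H := by exact_mod_cast hH
    have hM3 : (0 : ℝ) < M₃ := by exact_mod_cast h₃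
    have hM2 : (0 : ℝ) < M₂ := by exact_mod_cast h₂
    have e1 : (1 : ℝ) / M₃ + 1 / H = ((H : ℝ) / M₃ + 1) / H := by
      field_simp
    have e2 : (1 : ℝ) / M₂ + 1 / (2 * H + 1 : ℝ) = ((2 * H + 1 : ℝ) / M₂ + 1) / (2 * H + 1) := by
      field_simp
    rw [e1, e2, div_pow]
    field_simp
  have hfin : (R.card : ℝ) / (M₃ * (M₂ : ℝ) ^ n) < ε := by
    have hM3 : (0 : ℝ) < M₃ := by exact_mod_cast h₃
    have hM2 : (0 : ℝ) < M₂ := by exact_mod_cast h₂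
    refine lt_of_le_of_lt ?_ hlt
    rw [div_le_iff₀ (by positivity)]
    linarith
  filter_upwards [hlim.eventually_lt_const hfin, eventually_gt_atTop 0] with H h1 hH
  refine lt_of_le_of_lt ?_ h1
  rw [hbox]
  gcongr
  exact hub H

open Classical in
/-- from pairs to rational vectors -/
theorem height_bad_le {n : ℕ} (hn : 0 < n) (Good : (Fin n → ℚ) → Prop) {H : ℕ} (hH : 1 ≤ H) :
    0 < ((ratBox n H).card : ℝ) ∧ (((ratBox n H).filter fun x => ¬ Good x).card : ℝ) / ((ratBox n H).card : ℝ) ≤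
      12 * (((((Icc (1 : ℤ) H) ×ˢ (Fintype.piFinset fun _ : Fin n => Icc (-(H : ℤ)) H)).filter
          (fun v => ¬ Good fun i => (v.2 i : ℚ) / (v.1 : ℚ))).card : ℝ) /
        ((((Icc (1 : ℤ) H) ×ˢ (Fintype.piFinset fun _ : Fin n => Icc (-(H : ℤ)) H)).card : ℝ))) := by
  obtain ⟨m, rfl⟩ : ∃ m, n = m + 1 := ⟨n - 1, by omega⟩
  set B : Finset (ℤ × (Fin (m + 1) → ℤ)) :=
    (Icc (1 : ℤ) H) ×ˢ (Fintype.piFinset fun _ : Fin (m + 1) => Icc (-(H : ℤ)) H) with hB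
  set f : ℤ × (Fin (m + 1) → ℤ) → (Fin (m + 1) → ℚ) := fun v i => (v.2 i : ℚ) / (v.1 : ℚ) with hf
  have hcardB : (B.card : ℝ) = H * (2 * H + 1) ^ (m + 1) := by
    have : B.card = H * (2 * H + 1) ^ (m + 1) := by
      rw [hB]
      simp only [card_product, Fintype.card_piFinset, Int.card_Icc, prod_const, card_univ,
        Fintype.card_fin]
      congr 2
      · omega
      · omega
    rw [this]
    push_cast
    ring
  have hH' : (1 : ℝ) ≤ H := by exact_mod_cast hH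
  have hR : (B.card : ℝ) ≤ 12 * ((ratBox (m + 1) H).card : ℝ) := by
    have h1 : ((cop H).card : ℝ) * (2 * H + 1) ^ m ≤ ((ratBox (m + 1) H).card : ℝ) := by
      exact_mod_cast ratBox_card_ge m H
    have h2 := cop_card H
    have h3 : (0 : ℝ) ≤ (2 * H + 1) ^ m := by positivity
    rw [hcardB]
    have h4 : (H : ℝ) ^ 2 / 4 * (2 * H + 1) ^ m ≤ ((cop H).card : ℝ) * (2 * H + 1) ^ m :=
      mul_le_mul_of_nonneg_right h2 h3
    have h5 : (H : ℝ) * (2 * H + 1) ^ (m + 1) ≤ 12 * ((H : ℝ) ^ 2 / 4 * (2 * H + 1) ^ m) := by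
      have h6 : (H : ℝ) * (2 * H + 1) ≤ 3 * (H : ℝ) ^ 2 := by nlinarith
      have h7 := mul_le_mul_of_nonneg_right h6 h3
      rw [pow_succ]
      nlinarith
    linarith
  have hBp : (0 : ℝ) < (B.card : ℝ) := by
    rw [hcardB]
    positivity
  have hRp : (0 : ℝ) < ((ratBox (m + 1) H).card : ℝ) := by linarith
  refine ⟨hRp, ?_⟩
  have hbadle : ((ratBox (m + 1) H).filter fun x => ¬ Good x).card ≤
      (B.filter fun v => ¬ Good (f v)).card := by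
    have hsub : ((ratBox (m + 1) H).filter fun x => ¬ Good x) ⊆
        (B.filter fun v => ¬ Good (f v)).image f := by
      intro x hx
      rw [mem_filter, ratBox, mem_image] at hx
      obtain ⟨⟨v, hv, rfl⟩, h2⟩ := hx
      rw [mem_image]
      exact ⟨v, mem_filter.mpr ⟨hv, h2⟩, rfl⟩
    exact (card_le_card hsub).trans card_image_le
  have h3 : (((ratBox (m + 1) H).filter fun x => ¬ Good x).card : ℝ) ≤
      ((B.filter fun v => ¬ Good (f v)).card : ℝ) := by exact_mod_cast hbadle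
  rw [← mul_div_assoc, div_le_div_iff₀ hRp hBp]
  have h5 : (0 : ℝ) ≤ ((B.filter fun v => ¬ Good (f v)).card : ℝ) := Nat.cast_nonneg _
  calc (((ratBox (m + 1) H).filter fun x => ¬ Good x).card : ℝ) * (B.card : ℝ)
      ≤ ((B.filter fun v => ¬ Good (f v)).card : ℝ) * (12 * ((ratBox (m + 1) H).card : ℝ)) :=
      mul_le_mul h3 hR hBp.le h5
    _ = _ := by ring

/-- writing a rational vector with a given prime in the denominator -/
lemma exists_repr {n : ℕ} {p : ℕ} (hp : p.Prime) {q q' : ℤ} {b u : Fin n → ℤ} (hqq : q = p * q')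
    (hq' : ¬ (p : ℤ) ∣ q') (hb : ∀ i, (p : ℤ) ^ 2 ∣ b i - q' * u i) :
    ∃ (s' : Fin n → ℤ) (k : ℤ), ¬ (p : ℤ) ∣ k ∧ (∀ i, (p : ℤ) ^ 2 ∣ s' i - u i) ∧
      ∀ i, (b i : ℚ) / (q : ℚ) = (s' i : ℚ) / ((p : ℚ) * (k : ℚ)) := by
  have hcop : IsCoprime q' ((p : ℤ) ^ 2) :=
    (((Nat.prime_iff_prime_int.1 hp).coprime_iff_not_dvd.2 hq').symm).pow_right
  obtain ⟨k, l, hkl⟩ := hcop
  have hk : (p : ℤ) ^ 2 ∣ k * q' - 1 := ⟨-l, by linear_combination hkl⟩
  have hkq : ¬ (p : ℤ) ∣ q' * k := by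
    intro hd
    have h1 : (p : ℤ) ∣ 1 := by
      have h2 : (1 : ℤ) = q' * k - (k * q' - 1) := by ring
      rw [h2]
      exact dvd_sub hd ((dvd_pow_self _ two_ne_zero).trans hk)
    exact (Nat.prime_iff_prime_int.1 hp).not_isUnit (isUnit_of_dvd_one h1)
  have hk0 : k ≠ 0 := by
    rintro rfl
    rw [mul_zero] at hkq
    exact hkq (dvd_zero _)
  refine ⟨fun i => b i * k, q' * k, hkq, fun i => ?_, fun i => ?_⟩
  · have h2 : b i * k - u i = k * (b i - q' * u i) + u i * (k * q' - 1) := by ring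
    change (p : ℤ) ^ 2 ∣ b i * k - u i
    rw [h2]
    exact dvd_add (dvd_mul_of_dvd_right (hb i) _) (dvd_mul_of_dvd_right hk _)
  · rw [hqq]
    have hp0 : (p : ℚ) ≠ 0 := by exact_mod_cast hp.ne_zero
    have hq0 : (q' : ℚ) ≠ 0 := by
      have : q' ≠ 0 := fun h => hq' (h ▸ dvd_zero _)
      exact_mod_cast this
    have hk0' : (k : ℚ) ≠ 0 := by exact_mod_cast hk0
    push_cast
    field_simp

open Classical in
/-- **rational vectors with a prime of bounded size in the denominator**, and a condition modulo its square -/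
theorem density_fin {n : ℕ} (hn : 0 < n) (p₀ : ℕ) (G : ℕ → Set (Fin n → ℤ))
    (hper : ∀ (p : ℕ) (u w : Fin n → ℤ), (∀ i, (p : ℤ) ^ 2 ∣ u i - w i) → u ∈ G p → w ∈ G p)
    (hcnt : ∀ p : ℕ, p.Prime → p₀ ≤ p → ((p : ℝ) ^ 2) ^ n / 2 ≤
      (Set.ncard {u | (∀ i, 0 ≤ u i ∧ u i < (p : ℤ) ^ 2) ∧ u ∈ G p} : ℝ)) {ε : ℝ} (hε : 0 < ε) :
    ∃ p₁ : ℕ, ∀ᶠ H : ℕ in atTop, (1 - ε) * ((ratBox n H).card : ℝ) ≤
      (((ratBox n H).filter fun s => ∃ (p : ℕ) (s' : Fin n → ℤ) (q' : ℤ), p.Prime ∧ p₀ ≤ p ∧ p ≤ p₁ ∧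
        ¬ (p : ℤ) ∣ q' ∧ s' ∈ G p ∧ ∀ i, s i = (s' i : ℚ) / ((p : ℚ) * (q' : ℚ))).card : ℝ) := by
  obtain ⟨p₁, h⟩ := pairs_eps p₀ G hcnt (show 0 < ε / 12 by positivity)
  refine ⟨p₁, ?_⟩
  set Good : (Fin n → ℚ) → Prop := fun s => ∃ (p : ℕ) (s' : Fin n → ℤ) (q' : ℤ), p.Prime ∧ p₀ ≤ p ∧ p ≤ p₁ ∧
        ¬ (p : ℤ) ∣ q' ∧ s' ∈ G p ∧ ∀ i, s i = (s' i : ℚ) / ((p : ℚ) * (q' : ℚ)) with hGood
  have h1 := h (fun q b => Good fun i => (b i : ℚ) / (q : ℚ)) (by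
    intro q b p q' u hp h1 h2 _ hqq hq' hb hu
    obtain ⟨s', k, c1, c2, c3⟩ := exists_repr hp hqq hq' hb
    refine ⟨p, s', k, hp, h1, h2, c1, hper p u s' (fun i => ?_) hu, c3⟩
    rw [← neg_sub, dvd_neg]
    exact c2 i)
  filter_upwards [h1, eventually_ge_atTop 1] with H hH hH1
  obtain ⟨c1, c2⟩ := height_bad_le hn Good hH1
  have c3 : (((ratBox n H).filter fun x => ¬ Good x).card : ℝ) / ((ratBox n H).card : ℝ) ≤ ε :=
    c2.trans (by linarith)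
  rw [div_le_iff₀ c1] at c3
  have c4 : (((ratBox n H).filter Good).card : ℝ) +
      (((ratBox n H).filter fun x => ¬ Good x).card : ℝ) = ((ratBox n H).card : ℝ) := by
    exact_mod_cast card_filter_add_card_filter_not (s := ratBox n H) Good
  linarith

open Classical in
/-- the same for rational vectors indexed by a finite type -/
theorem density_boxS_G {σ : Type} [Fintype σ] [Nonempty σ] (p₀ : ℕ) (G : ℕ → Set (σ → ℤ))
    (hper : ∀ (p : ℕ) (u w : σ → ℤ), (∀ i, (p : ℤ) ^ 2 ∣ u i - w i) → u ∈ G p → w ∈ G p)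
    (hcnt : ∀ p : ℕ, p.Prime → p₀ ≤ p → ((p : ℝ) ^ 2) ^ Fintype.card σ / 2 ≤
      (Set.ncard {u | (∀ i, 0 ≤ u i ∧ u i < (p : ℤ) ^ 2) ∧ u ∈ G p} : ℝ)) {ε : ℝ} (hε : 0 < ε) :
    ∃ p₁ : ℕ, ∀ᶠ H : ℕ in atTop, (1 - ε) * ((boxS σ H).card : ℝ) ≤
      (((boxS σ H).filter fun s => ∃ (p : ℕ) (s' : σ → ℤ) (q' : ℤ), p.Prime ∧ p₀ ≤ p ∧ p ≤ p₁ ∧
        ¬ (p : ℤ) ∣ q' ∧ s' ∈ G p ∧ ∀ i, s i = (s' i : ℚ) / ((p : ℚ) * (q' : ℚ))).card : ℝ) := by
  set e : Fin (Fintype.card σ) ≃ σ := (Fintype.equivFin σ).symm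
  set G₁ : ℕ → Set (Fin (Fintype.card σ) → ℤ) := fun p => {u | (u ∘ e.symm) ∈ G p} with hG₁
  have hinj : Function.Injective (fun u : Fin (Fintype.card σ) → ℤ => (u ∘ e.symm : σ → ℤ)) := by
    intro t t' h
    funext i
    have := congrFun h (e i)
    simpa using this
  obtain ⟨p₁, h⟩ := density_fin Fintype.card_pos p₀ G₁
    (fun p u w h1 h2 => hper p (u ∘ e.symm) (w ∘ e.symm) (fun i => h1 _) h2) (fun p hp hpp => by
      refine (hcnt p hp hpp).trans (le_of_eq ?_)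
      rw [← Set.ncard_image_of_injective _ hinj]
      congr 2
      ext u
      constructor
      · rintro ⟨h1, h2⟩
        refine ⟨u ∘ e, ⟨fun i => h1 _, ?_⟩, ?_⟩
        · change (u ∘ e) ∘ e.symm ∈ G p
          have : (u ∘ e) ∘ e.symm = u := by funext i; simp
          rw [this]
          exact h2
        · funext i
          simp
      · rintro ⟨t, ⟨h1, h2⟩, rfl⟩
        exact ⟨fun i => h1 _, h2⟩) hε
  refine ⟨p₁, ?_⟩
  filter_upwards [h] with H hH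
  have h1 : (boxS σ H).card = (ratBox (Fintype.card σ) H).card := by
    have h2 := card_filter_boxS e H fun _ => True
    simpa using h2
  rw [h1, card_filter_boxS e]
  refine hH.trans (le_of_eq ?_)
  congr 2
  apply filter_congr
  intro t _
  constructor
  · rintro ⟨p, s', q', h1, h2, h3, h4, h5, h6⟩
    exact ⟨p, s' ∘ e.symm, q', h1, h2, h3, h4, h5, fun i => by
      change t (e.symm i) = _
      rw [h6]
      rfl⟩
  · rintro ⟨p, s', q', h1, h2, h3, h4, h5, h6⟩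
    refine ⟨p, s' ∘ e, q', h1, h2, h3, h4, ?_, fun i => ?_⟩
    · change (s' ∘ e) ∘ e.symm ∈ G p
      have : (s' ∘ e) ∘ e.symm = s' := by funext i; simp
      rw [this]
      exact h5
    · have := h6 (e i)
      simpa using this

open Classical in
/-- **almost all rational vectors** are of the form `s' / (p q')` with a prime `p` of bounded size which divides
neither `q'` nor `P (s')`, up to a proportion `ε` -/
theorem density_boxS_eps {σ : Type} [Fintype σ] [Nonempty σ] {P : MvPolynomial σ ℤ} (hP : P ≠ 0) (p₀ : ℕ)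
    {ε : ℝ} (hε : 0 < ε) :
    ∃ p₁ : ℕ, ∀ᶠ H : ℕ in atTop, (1 - ε) * ((boxS σ H).card : ℝ) ≤
      (((boxS σ H).filter fun s => ∃ (p : ℕ) (s' : σ → ℤ) (q' : ℤ), p.Prime ∧ p₀ ≤ p ∧ p ≤ p₁ ∧
        ¬ (p : ℤ) ∣ q' ∧ ¬ (p : ℤ) ∣ eval s' P ∧ ∀ i, s i = (s' i : ℚ) / ((p : ℚ) * (q' : ℚ))).card : ℝ) := by
  set e : Fin (Fintype.card σ) ≃ σ := (Fintype.equivFin σ).symm
  set P₁ : MvPolynomial (Fin (Fintype.card σ)) ℤ := rename e.symm P with hP₁
  have hP₁0 : P₁ ≠ 0 := fun h => hP (rename_injective _ e.symm.injective (by rw [← hP₁, h, map_zero]))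
  obtain ⟨p₂, hp₂⟩ := map_ne_zero_of_large hP₁0
  obtain ⟨p₁, h⟩ := density_boxS_G (max p₀ (max p₂ (2 * P₁.totalDegree))) (fun p => {u : σ → ℤ | ¬ (p : ℤ) ∣ eval u P})
    (fun p u w h hu hd => hu ((dvd_eval_iff P fun i => (dvd_pow_self _ two_ne_zero).trans (h i)).2 hd))
    (fun p hp hpp => by
      refine (count_G hp (hp₂ p (le_trans (le_trans (le_max_left _ _) (le_max_right _ _)) hpp))
        (le_trans (le_trans (le_max_right _ _) (le_max_right _ _)) hpp)).trans (le_of_eq ?_)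
      have hinj : Function.Injective (fun u : Fin (Fintype.card σ) → ℤ => (u ∘ e.symm : σ → ℤ)) := by
        intro t t' h
        funext i
        have := congrFun h (e i)
        simpa using this
      have hev : ∀ u : Fin (Fintype.card σ) → ℤ, eval u P₁ = eval (u ∘ e.symm) P := fun u => by
        rw [hP₁, eval_rename]
      rw [← Set.ncard_image_of_injective _ hinj]
      congr 2
      ext u
      constructor
      · rintro ⟨t, ⟨h1, h2⟩, rfl⟩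
        refine ⟨fun i => h1 _, ?_⟩
        change ¬ (p : ℤ) ∣ eval (t ∘ e.symm) P
        rw [← hev]
        exact h2
      · rintro ⟨h1, h2⟩
        have h3 : (u ∘ e) ∘ e.symm = u := by funext i; simp
        refine ⟨u ∘ e, ⟨fun i => h1 _, ?_⟩, h3⟩
        change ¬ (p : ℤ) ∣ eval (u ∘ e) P₁
        rw [hev, h3]
        exact h2) hε
  refine ⟨p₁, ?_⟩
  filter_upwards [h] with H hH
  refine hH.trans (Nat.cast_le.2 (card_le_card ?_))
  intro s hs
  rw [mem_filter] at hs ⊢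
  obtain ⟨hs, p, s', q', h1, h2, h3, h4, h5, h6⟩ := hs
  exact ⟨hs, p, s', q', h1, le_trans (le_max_left _ _) h2, h3, h4, h5, h6⟩

end Pool.Agent.Helper69.AA
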