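import Pool.Agent.Helper69.AA.DensE

/-! # Density of the rational vectors with a prime of bounded size in the denominator, the rest of the
denominator being congruent to one -/

open Finset Filter MvPolynomial

namespace Pool.Agent.Helper69.AA
open Pool.Agent.Helper20.ZT Pool.Agent.Helper36.DL Pool.Agent.Helper81.DL

/-- writing a rational vector with a given prime in the denominator -/
lemma exists_reprL {n : ℕ} {p : ℕ} (hp : p.Prime) (L : ℕ) {q q' : ℤ} {b u : Fin n → ℤ} (hqq : q = p * q')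
    (hq' : ¬ (p : ℤ) ∣ q') (hb : ∀ i, (p : ℤ) ^ 2 ∣ b i - q' * u i) :
    ∃ (s' : Fin n → ℤ) (k : ℤ), ¬ (p : ℤ) ∣ k ∧ (p : ℤ) ^ L ∣ k - 1 ∧ (∀ i, (p : ℤ) ^ 2 ∣ s' i - u i) ∧
      ∀ i, (b i : ℚ) / (q : ℚ) = (s' i : ℚ) / ((p : ℚ) * (k : ℚ)) := by
  have hcop : IsCoprime q' ((p : ℤ) ^ (L + 2)) :=
    (((Nat.prime_iff_prime_int.1 hp).coprime_iff_not_dvd.2 hq').symm).pow_right
  obtain ⟨k, l, hkl⟩ := hcop
  have hk' : (p : ℤ) ^ (L + 2) ∣ k * q' - 1 := ⟨-l, by linear_combination hkl⟩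
  have hk : (p : ℤ) ^ 2 ∣ k * q' - 1 := (pow_dvd_pow _ (by omega)).trans hk'
  have hkL : (p : ℤ) ^ L ∣ q' * k - 1 := by
    rw [mul_comm]
    exact (pow_dvd_pow _ (by omega)).trans hk'
  have hkq : ¬ (p : ℤ) ∣ q' * k := by
    intro hd
    have h1 : (p : ℤ) ∣ 1 := by
      have h2 : (1 : ℤ) = q' * k - (k * q' - 1) := by ring
      rw [h2]
      exact dvd_sub hd ((dvd_pow_self _ two_ne_zero).trans hk)
    exact (Nat.prime_iff_prime_int.1 hp).not_isUnit (isUnit_of_dvd_one h1)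
  have hk0 : k ≠ 0 := by
    rintro rfl
    rw [mul_zero] at hkq
    exact hkq (dvd_zero _)
  refine ⟨fun i => b i * k, q' * k, hkq, hkL, fun i => ?_, fun i => ?_⟩
  · have h2 : b i * k - u i = k * (b i - q' * u i) + u i * (k * q' - 1) := by ring
    change (p : ℤ) ^ 2 ∣ b i * k - u i
    rw [h2]
    exact dvd_add (dvd_mul_of_dvd_right (hb i) _) (dvd_mul_of_dvd_right hk _)
  · rw [hqq]
    have hp0 : (p : ℚ) ≠ 0 := by exact_mod_cast hp.ne_zero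
    have hq0 : (q' : ℚ) ≠ 0 := by
      have : q' ≠ 0 := fun h => hq' (h ▸ dvd_zero _)
      exact_mod_cast this
    have hk0' : (k : ℚ) ≠ 0 := by exact_mod_cast hk0
    push_cast
    field_simp

open Classical in
/-- **rational vectors with a prime of bounded size in the denominator**, and a condition modulo its square -/
theorem density_finL {n : ℕ} (hn : 0 < n) (p₀ L : ℕ) (G : ℕ → Set (Fin n → ℤ))
    (hper : ∀ (p : ℕ) (u w : Fin n → ℤ), (∀ i, (p : ℤ) ^ 2 ∣ u i - w i) → u ∈ G p → w ∈ G p)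
    (hcnt : ∀ p : ℕ, p.Prime → p₀ ≤ p → ((p : ℝ) ^ 2) ^ n / 2 ≤
      (Set.ncard {u | (∀ i, 0 ≤ u i ∧ u i < (p : ℤ) ^ 2) ∧ u ∈ G p} : ℝ)) {ε : ℝ} (hε : 0 < ε) :
    ∃ p₁ : ℕ, ∀ᶠ H : ℕ in atTop, (1 - ε) * ((ratBox n H).card : ℝ) ≤
      (((ratBox n H).filter fun s => ∃ (p : ℕ) (s' : Fin n → ℤ) (q' : ℤ), p.Prime ∧ p₀ ≤ p ∧ p ≤ p₁ ∧
        ¬ (p : ℤ) ∣ q' ∧ (p : ℤ) ^ L ∣ q' - 1 ∧ s' ∈ G p ∧
        ∀ i, s i = (s' i : ℚ) / ((p : ℚ) * (q' : ℚ))).card : ℝ) := by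
  obtain ⟨p₁, h⟩ := pairs_eps p₀ G hcnt (show 0 < ε / 12 by positivity)
  refine ⟨p₁, ?_⟩
  set Good : (Fin n → ℚ) → Prop := fun s => ∃ (p : ℕ) (s' : Fin n → ℤ) (q' : ℤ), p.Prime ∧ p₀ ≤ p ∧ p ≤ p₁ ∧
        ¬ (p : ℤ) ∣ q' ∧ (p : ℤ) ^ L ∣ q' - 1 ∧ s' ∈ G p ∧ ∀ i, s i = (s' i : ℚ) / ((p : ℚ) * (q' : ℚ)) with hGood
  have h1 := h (fun q b => Good fun i => (b i : ℚ) / (q : ℚ)) (by
    intro q b p q' u hp h1 h2 _ hqq hq' hb hu
    obtain ⟨s', k, c1, c4, c2, c3⟩ := exists_reprL hp L hqq hq' hb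
    refine ⟨p, s', k, hp, h1, h2, c1, c4, hper p u s' (fun i => ?_) hu, c3⟩
    rw [← neg_sub, dvd_neg]
    exact c2 i)
  filter_upwards [h1, eventually_ge_atTop 1] with H hH hH1
  obtain ⟨c1, c2⟩ := height_bad_le hn Good hH1
  have c3 : (((ratBox n H).filter fun x => ¬ Good x).card : ℝ) / ((ratBox n H).card : ℝ) ≤ ε :=
    c2.trans (by linarith)
  rw [div_le_iff₀ c1] at c3
  have c4 : (((ratBox n H).filter Good).card : ℝ) +
      (((ratBox n H).filter fun x => ¬ Good x).card : ℝ) = ((ratBox n H).card : ℝ) := by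
    exact_mod_cast card_filter_add_card_filter_not (s := ratBox n H) Good
  linarith

open Classical in
/-- the same for rational vectors indexed by a finite type -/
theorem density_boxS_L {σ : Type} [Fintype σ] [Nonempty σ] (p₀ L : ℕ) (G : ℕ → Set (σ → ℤ))
    (hper : ∀ (p : ℕ) (u w : σ → ℤ), (∀ i, (p : ℤ) ^ 2 ∣ u i - w i) → u ∈ G p → w ∈ G p)
    (hcnt : ∀ p : ℕ, p.Prime → p₀ ≤ p → ((p : ℝ) ^ 2) ^ Fintype.card σ / 2 ≤
      (Set.ncard {u | (∀ i, 0 ≤ u i ∧ u i < (p : ℤ) ^ 2) ∧ u ∈ G p} : ℝ)) {ε : ℝ} (hε : 0 < ε) :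
    ∃ p₁ : ℕ, ∀ᶠ H : ℕ in atTop, (1 - ε) * ((boxS σ H).card : ℝ) ≤
      (((boxS σ H).filter fun s => ∃ (p : ℕ) (s' : σ → ℤ) (q' : ℤ), p.Prime ∧ p₀ ≤ p ∧ p ≤ p₁ ∧
        ¬ (p : ℤ) ∣ q' ∧ (p : ℤ) ^ L ∣ q' - 1 ∧ s' ∈ G p ∧
        ∀ i, s i = (s' i : ℚ) / ((p : ℚ) * (q' : ℚ))).card : ℝ) := by
  set e : Fin (Fintype.card σ) ≃ σ := (Fintype.equivFin σ).symm
  set G₁ : ℕ → Set (Fin (Fintype.card σ) → ℤ) := fun p => {u | (u ∘ e.symm) ∈ G p} with hG₁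
  have hinj : Function.Injective (fun u : Fin (Fintype.card σ) → ℤ => (u ∘ e.symm : σ → ℤ)) := by
    intro t t' h
    funext i
    have := congrFun h (e i)
    simpa using this
  obtain ⟨p₁, h⟩ := density_finL Fintype.card_pos p₀ L G₁
    (fun p u w h1 h2 => hper p (u ∘ e.symm) (w ∘ e.symm) (fun i => h1 _) h2) (fun p hp hpp => by
      refine (hcnt p hp hpp).trans (le_of_eq ?_)
      rw [← Set.ncard_image_of_injective _ hinj]
      congr 2
      ext u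
      constructor
      · rintro ⟨h1, h2⟩
        refine ⟨u ∘ e, ⟨fun i => h1 _, ?_⟩, ?_⟩
        · change (u ∘ e) ∘ e.symm ∈ G p
          have : (u ∘ e) ∘ e.symm = u := by funext i; simp
          rw [this]
          exact h2
        · funext i
          simp
      · rintro ⟨t, ⟨h1, h2⟩, rfl⟩
        exact ⟨fun i => h1 _, h2⟩) hε
  refine ⟨p₁, ?_⟩
  filter_upwards [h] with H hH
  have h1 : (boxS σ H).card = (ratBox (Fintype.card σ) H).card := by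
    have h2 := card_filter_boxS e H fun _ => True
    simpa using h2
  rw [h1, card_filter_boxS e]
  refine hH.trans (le_of_eq ?_)
  congr 2
  apply filter_congr
  intro t _
  constructor
  · rintro ⟨p, s', q', h1, h2, h3, h4, h7, h5, h6⟩
    exact ⟨p, s' ∘ e.symm, q', h1, h2, h3, h4, h7, h5, fun i => by
      change t (e.symm i) = _
      rw [h6]
      rfl⟩
  · rintro ⟨p, s', q', h1, h2, h3, h4, h7, h5, h6⟩
    refine ⟨p, s' ∘ e, q', h1, h2, h3, h4, h7, ?_, fun i => ?_⟩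
    · change (s' ∘ e) ∘ e.symm ∈ G p
      have : (s' ∘ e) ∘ e.symm = s' := by funext i; simp
      rw [this]
      exact h5
    · have := h6 (e i)
      simpa using this

end Pool.Agent.Helper69.AA
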