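import Mathlib

/-! # The Nullstellensatz over a domain -/

open MvPolynomial

namespace Pool.Agent.Helper69.AA

attribute [local instance] MvPolynomial.algebraMvPolynomial

/-- **the Nullstellensatz over a domain** `R ⊆ ℂ`: a polynomial which vanishes at the common zeros of `J`
with coordinates algebraic over `R` has a power a multiple of which by a nonzero element of `R` is in `J` -/
theorem exists_null {τ R : Type} [Finite τ] [CommRing R] [IsDomain R] [Algebra R ℂ] [FaithfulSMul R ℂ]
    (J : Ideal (MvPolynomial τ R)) (h : MvPolynomial τ R)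
    (hz : ∀ x : τ → ℂ, (∀ t, IsAlgebraic R (x t)) → (∀ f ∈ J, aeval x f = 0) → aeval x h = 0) :
    ∃ (P : R) (k : ℕ), P ≠ 0 ∧ C P * h ^ k ∈ J := by
  classical
  set k := FractionRing R with hk
  set K := AlgebraicClosure k with hK
  have halg : Algebra.IsAlgebraic R K :=
    (IsFractionRing.comap_isAlgebraic_iff (A := R) (K := k) (C := K)).2 (AlgebraicClosure.isAlgebraic k)
  have hfaith : FaithfulSMul R K := by
    rw [faithfulSMul_iff_algebraMap_injective, IsScalarTower.algebraMap_eq R k K]
    exact (algebraMap k K).injective.comp (IsFractionRing.injective R k)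
  let φ : K →ₐ[R] ℂ := IsAlgClosed.lift
  set J' : Ideal (MvPolynomial τ k) := J.map (algebraMap (MvPolynomial τ R) (MvPolynomial τ k)) with hJ'
  set h' := algebraMap (MvPolynomial τ R) (MvPolynomial τ k) h with hh'
  have hmap : ∀ (x : τ → K) (f : MvPolynomial τ R),
      φ (aeval x (algebraMap (MvPolynomial τ R) (MvPolynomial τ k) f)) = aeval (fun t => φ (x t)) f := by
    intro x f
    have e1 : aeval x (algebraMap (MvPolynomial τ R) (MvPolynomial τ k) f) = aeval x f := by
      rw [algebraMap_def, aeval_map_algebraMap]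
    rw [e1]
    have e2 : φ.comp (aeval x) = aeval fun t => φ (x t) := by
      ext t
      simp
    exact DFunLike.congr_fun e2 f
  have h1 : h' ∈ vanishingIdeal k (zeroLocus K J') := by
    rw [mem_vanishingIdeal_iff]
    intro x hx
    apply φ.toRingHom.injective
    change φ _ = φ 0
    rw [hmap, map_zero]
    refine hz _ (fun t => ?_) fun f hf => ?_
    · exact (halg.isAlgebraic (x t)).algHom φ
    · rw [← hmap, hx _ (Ideal.mem_map_of_mem _ hf), map_zero]
  rw [vanishingIdeal_zeroLocus_eq_radical] at h1
  obtain ⟨e, he⟩ := h1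
  have hloc : IsLocalization ((nonZeroDivisors R).map (C : R →+* MvPolynomial τ R)) (MvPolynomial τ k) :=
    MvPolynomial.isLocalization (nonZeroDivisors R) k
  rw [hh', ← map_pow, hJ', IsLocalization.mem_map_algebraMap_iff ((nonZeroDivisors R).map (C : R →+* MvPolynomial τ R))] at he
  obtain ⟨⟨⟨a, ha⟩, ⟨m, hm⟩⟩, hma⟩ := he
  obtain ⟨P, hP, hPm⟩ := Submonoid.mem_map.1 hm
  refine ⟨P, e, nonZeroDivisors.ne_zero hP, ?_⟩
  have hinj : Function.Injective (algebraMap (MvPolynomial τ R) (MvPolynomial τ k)) := by
    rw [algebraMap_def]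
    exact map_injective _ (IsFractionRing.injective R k)
  have h2 : h ^ e * m = a := by
    apply hinj
    rw [map_mul]
    exact hma
  have h3 : (C P : MvPolynomial τ R) = m := hPm
  rw [h3, mul_comm, h2]
  exact ha

end Pool.Agent.Helper69.AA
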