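import Pool.Agent.Helper69.AA.Defs
import Pool.Agent.Helper69.AA.Alg
import Pool.Agent.Helper69.AA.Null
import Pool.Agent.Helper69.DL.First

/-! # Spreading out the conditions modulo `p` -/

open MvPolynomial

namespace Pool.Agent.Helper69.AA
open Pool.Agent.Helper20.ZD Pool.Agent.Helper20.DL Pool.Agent.Helper69.DL

variable {v : AbsoluteValue ℂ ℝ}

section ideal

/-- the elements of an ideal are small if the generators are -/
lemma v_lt_of_mem_span {A : Type} [CommRing A] (hv : IsNonarchimedean v) (ψ : A →+* ℂ) (hψ : ∀ a, v (ψ a) ≤ 1)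
    {S : Set A} (hS : ∀ g ∈ S, v (ψ g) < 1) {f : A} (hf : f ∈ Ideal.span S) : v (ψ f) < 1 := by
  induction hf using Submodule.span_induction with
  | mem x hx => exact hS x hx
  | zero => simp
  | add x y _ _ hx hy =>
    rw [map_add]
    exact (hv _ _).trans_lt (max_lt hx hy)
  | smul a x _ hx =>
    rw [smul_eq_mul, map_mul, map_mul]
    exact lt_of_le_of_lt (mul_le_of_le_one_left (AbsoluteValue.nonneg v _) (hψ a)) hx

end ideal

section alg

variable {σ : Type}

/-- algebraic over the ring of the parameters -/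
lemma isAlgebraic_adjoin {ss : σ → ℂ} (hind : AlgebraicIndependent ℤ ss) {x : ℂ}
    {p : Polynomial (MvPolynomial σ ℤ)} (hp : p ≠ 0)
    (hx : Polynomial.eval₂ (aeval ss : MvPolynomial σ ℤ →ₐ[ℤ] ℂ).toRingHom x p = 0) :
    IsAlgebraic (Algebra.adjoin ℤ (Set.range ss)) x := by
  let e := hind.aevalEquiv
  refine ⟨p.map e.toRingEquiv.toRingHom, ?_, ?_⟩
  · rw [Ne, Polynomial.map_eq_zero_iff e.injective]
    exact hp
  · rw [Polynomial.aeval_def, Polynomial.eval₂_map, ← hx]
    congr 1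

lemma ev_parts (s : σ → ℂ) (H : MvPolynomial (Fin 2) (MvPolynomial σ ℤ)) (x y : ℂ)
    (T : Finset (Fin 2 →₀ ℕ)) :
    eval₂ (aeval s : MvPolynomial σ ℤ →ₐ[ℤ] ℂ).toRingHom ![x, y] (∑ m ∈ T, monomial m (H.coeff m)) =
      ∑ m ∈ T, aeval s (H.coeff m) * x ^ m 0 * y ^ m 1 := by
  classical
  rw [← coe_eval₂Hom, map_sum]
  refine Finset.sum_congr rfl fun m _ => ?_
  rw [coe_eval₂Hom, eval₂_monomial, Finsupp.prod_fintype _ _ (fun i => pow_zero _), Fin.prod_univ_two, mul_assoc]
  rfl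

end alg

/-- **spreading out** -/
theorem spread {σ : Type} {ss : σ → ℂ} (hind : AlgebraicIndependent ℤ ss)
    {H : MvPolynomial (Fin 2) (MvPolynomial σ ℤ)} (hH : Irreducible H) (h0 : 0 < H.degreeOf 0)
    (h1 : 0 < H.degreeOf 1) (hnc : NoCosetGen ss H) :
    ∃ P : MvPolynomial σ ℤ, P ≠ 0 ∧ ∀ (s : σ → ℤ) (p : ℕ), p.Prime → ¬ (p : ℤ) ∣ eval s P →
      ∀ v : AbsoluteValue ℂ ℝ, IsNonarchimedean v → v (p : ℂ) < 1 → GoodRel v p (map (eval s) H) := by
  classical
  let _ : Algebra (MvPolynomial σ ℤ) ℂ := (aeval ss : MvPolynomial σ ℤ →ₐ[ℤ] ℂ).toRingHom.toAlgebra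
  have hfaith : FaithfulSMul (MvPolynomial σ ℤ) ℂ := (faithfulSMul_iff_algebraMap_injective _ _).2 hind
  have halgMap : algebraMap (MvPolynomial σ ℤ) ℂ = (aeval ss : MvPolynomial σ ℤ →ₐ[ℤ] ℂ).toRingHom := rfl
  -- the classes of monomials
  let rel : ℤ → ℤ → Finset ((Fin 2 →₀ ℕ) × (Fin 2 →₀ ℕ)) := fun u w =>
    (H.support ×ˢ H.support).filter fun q => u * q.1 0 + w * q.1 1 = u * q.2 0 + w * q.2 1
  let part : Finset ((Fin 2 →₀ ℕ) × (Fin 2 →₀ ℕ)) → (Fin 2 →₀ ℕ) → MvPolynomial (Fin 2) (MvPolynomial σ ℤ) :=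
    fun E m₀ => ∑ m ∈ H.support.filter fun m => (m₀, m) ∈ E, monomial m (H.coeff m)
  have hE : ∀ E ∈ (H.support ×ˢ H.support).powerset, ∃ (P : MvPolynomial σ ℤ) (k : ℕ), P ≠ 0 ∧
      ((∃ u w : ℤ, ¬ (u = 0 ∧ w = 0) ∧ E = rel u w) →
        C P * (X 0 * X 1) ^ k ∈ Ideal.span (Set.range fun m : H.support => part E m)) := by
    intro E _
    by_cases hE : ∃ u w : ℤ, ¬ (u = 0 ∧ w = 0) ∧ E = rel u w
    · obtain ⟨u, w, huw, hEuw⟩ := hE
      obtain ⟨P, k, hP, hk⟩ := exists_null (Ideal.span (Set.range fun m : H.support => part E m))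
        (X 0 * X 1 : MvPolynomial (Fin 2) (MvPolynomial σ ℤ)) (by
          intro x hx hJ
          by_contra hne
          have hx01 : x 0 ≠ 0 ∧ x 1 ≠ 0 := by
            rw [map_mul, aeval_X, aeval_X] at hne
            exact ⟨left_ne_zero_of_mul hne, right_ne_zero_of_mul hne⟩
          have hxalg : ∀ t, IsAlgebraic (Algebra.adjoin ℤ (Set.range ss)) (x t) := by
            intro t
            obtain ⟨q, hq, hq2⟩ := hx t
            exact isAlgebraic_adjoin hind hq hq2
          obtain ⟨e, he⟩ := hnc (x 0) (x 1) hx01.1 hx01.2 (hxalg 0) (hxalg 1) u w huw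
          -- a monomial of weight `e`
          obtain ⟨m₀, hm₀⟩ : (H.support.filter fun m => u * (m 0 : ℤ) + w * m 1 = e).Nonempty := by
            rw [Finset.nonempty_iff_ne_empty]
            intro h
            rw [h, Finset.sum_empty] at he
            exact he rfl
          rw [Finset.mem_filter] at hm₀
          have h2 := hJ (part E m₀) (Ideal.subset_span ⟨⟨m₀, hm₀.1⟩, rfl⟩)
          apply he
          have h3 : (H.support.filter fun m => (m₀, m) ∈ E) =
              H.support.filter fun m => u * (m 0 : ℤ) + w * m 1 = e := by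
            refine Finset.filter_congr fun m hm => ?_
            rw [hEuw, Finset.mem_filter, Finset.mem_product]
            constructor
            · rintro ⟨-, h4⟩
              rw [← h4, hm₀.2]
            · intro h4
              exact ⟨⟨hm₀.1, hm⟩, by rw [h4, hm₀.2]⟩
          have h4 : aeval x (part E m₀) = eval₂ (aeval ss : MvPolynomial σ ℤ →ₐ[ℤ] ℂ).toRingHom ![x 0, x 1]
              (part E m₀) := by
            rw [aeval_def, halgMap]
            congr 1
            funext t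
            fin_cases t <;> rfl
          rw [h4] at h2
          have h5 := ev_parts ss H (x 0) (x 1) (H.support.filter fun m => (m₀, m) ∈ E)
          rw [h3] at h5
          rw [← h5, ← h2]
          change _ = eval₂ _ _ (∑ m ∈ H.support.filter fun m => (m₀, m) ∈ E, monomial m (H.coeff m))
          rw [h3])
      exact ⟨P, k, hP, fun _ => hk⟩
    · exact ⟨1, 0, one_ne_zero, fun h => absurd h hE⟩
  choose! PE kE hPE hPE' using hE
  obtain ⟨b0, hb0, cb0⟩ := exists_bot hH (i := 0) (j := 1) (by decide) h1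
  obtain ⟨b1, hb1, cb1⟩ := exists_bot hH (i := 1) (j := 0) (by decide) h0
  obtain ⟨t0, ht0, ct0⟩ := exists_top hH.ne_zero 0
  obtain ⟨t1, ht1, ct1⟩ := exists_top hH.ne_zero 1
  obtain ⟨A0, B0, D0, hD0, hs0⟩ := exists_sqf₀ hH h0
  obtain ⟨A1, B1, D1, hD1, hs1⟩ := exists_sqf₁ hH h1
  obtain ⟨k0, hk0⟩ : ∃ k, D0.coeff k ≠ 0 := by
    by_contra hcon
    push Not at hcon
    exact hD0 (Polynomial.ext fun k => by rw [hcon k, Polynomial.coeff_zero])
  obtain ⟨k1, hk1⟩ : ∃ k, D1.coeff k ≠ 0 := by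
    by_contra hcon
    push Not at hcon
    exact hD1 (Polynomial.ext fun k => by rw [hcon k, Polynomial.coeff_zero])
  refine ⟨H.coeff b0 * (H.coeff b1 * (H.coeff t0 * (H.coeff t1 * (D0.coeff k0 * (D1.coeff k1 *
    (C ((64 * (H.totalDegree + 1) ^ 2).factorial : ℤ) *
      ∏ E ∈ (H.support ×ˢ H.support).powerset, PE E)))))), ?_, ?_⟩
  · refine mul_ne_zero cb0 (mul_ne_zero cb1 (mul_ne_zero ct0 (mul_ne_zero ct1 (mul_ne_zero hk0 (mul_ne_zero hk1
      (mul_ne_zero ?_ (Finset.prod_ne_zero_iff.2 fun E hE => hPE E hE)))))))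
    rw [Ne, C_eq_zero]
    exact_mod_cast Nat.factorial_ne_zero _
  intro s p hp hpP v hv hvp
  set P7 : MvPolynomial σ ℤ := ∏ E ∈ (H.support ×ˢ H.support).powerset, PE E with hP7
  set P6 : MvPolynomial σ ℤ := C ((64 * (H.totalDegree + 1) ^ 2).factorial : ℤ) with hP6
  have hd : ∀ Q R : MvPolynomial σ ℤ, ¬ (p : ℤ) ∣ eval s (Q * R) →
      ¬ (p : ℤ) ∣ eval s Q ∧ ¬ (p : ℤ) ∣ eval s R := by
    intro Q R h
    rw [map_mul] at h
    exact ⟨fun h1 => h (h1.mul_right _), fun h1 => h (h1.mul_left _)⟩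
  obtain ⟨e1, f1⟩ := hd _ _ hpP
  obtain ⟨e2, f2⟩ := hd _ _ f1
  obtain ⟨e3, f3⟩ := hd _ _ f2
  obtain ⟨e4, f4⟩ := hd _ _ f3
  obtain ⟨e5, f5⟩ := hd _ _ f4
  obtain ⟨e6, f6⟩ := hd _ _ f5
  obtain ⟨e7, e8⟩ := hd _ _ f6
  have hlarge : 64 * (H.totalDegree + 1) ^ 2 < p := by
    by_contra hcon
    push Not at hcon
    apply e7
    rw [hP6, eval_C]
    exact_mod_cast Nat.dvd_factorial hp.pos hcon
  have hsupp : (map (eval s) H).support ⊆ H.support := support_map_subset _ _
  have htop : ∀ (i : Fin 2) (t : Fin 2 →₀ ℕ), t i = H.degreeOf i → ¬ (p : ℤ) ∣ (map (eval s) H).coeff t →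
      t i = (map (eval s) H).degreeOf i := by
    intro i t ht hpt
    refine le_antisymm ?_ ?_
    · exact monomial_le_degreeOf i (mem_support_iff.2 fun h => hpt (h ▸ dvd_zero _))
    · rw [ht, degreeOf_eq_sup, degreeOf_eq_sup]
      exact Finset.sup_mono hsupp
  have hmapae : ∀ (j : Fin 2) (D : Polynomial (MvPolynomial σ ℤ)),
      map (eval s) (Polynomial.aeval (X j : MvPolynomial (Fin 2) (MvPolynomial σ ℤ)) D) =
        Polynomial.aeval (X j : MvPolynomial (Fin 2) ℤ) (D.map (eval s)) := by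
    intro j D
    rw [Polynomial.map_aeval_eq_aeval_map (φ := eval s) (ψ := map (eval s)) (T := ℤ), map_X]
    refine RingHom.ext fun a => ?_
    change C (eval s a) = map (eval s) (C a)
    rw [map_C]
  have hcoef : ∀ m, ¬ (p : ℤ) ∣ eval s (H.coeff m) → ¬ (p : ℤ) ∣ (map (eval s) H).coeff m := by
    intro m hm
    rw [coeff_map]
    exact hm
  refine ⟨?_, ⟨b0, hb0, hcoef b0 e1⟩, ⟨b1, hb1, hcoef b1 e2⟩,
    ⟨t0, htop 0 t0 ht0 (hcoef t0 e3), hcoef t0 e3⟩,
    ⟨t1, htop 1 t1 ht1 (hcoef t1 e4), hcoef t1 e4⟩, ?_, ?_, ?_⟩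
  · -- no coset
    intro x y hx hy u w huw
    by_contra hcon
    push Not at hcon
    let ψ : MvPolynomial (Fin 2) (MvPolynomial σ ℤ) →+* ℂ :=
      (aeval ![x, y] : MvPolynomial (Fin 2) ℤ →ₐ[ℤ] ℂ).toRingHom.comp (map (eval s))
    have hψ : ∀ a, v (ψ a) ≤ 1 := fun a => v_aeval_le hv _ (fun i => by
      fin_cases i
      · exact hx.le
      · exact hy.le)
    have hmem := hPE' (rel u w) (Finset.mem_powerset.2 (Finset.filter_subset _ _)) ⟨u, w, huw, rfl⟩
    have hψC : ψ (C (PE (rel u w)) * (X 0 * X 1) ^ kE (rel u w)) =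
        ((eval s (PE (rel u w)) : ℤ) : ℂ) * (x * y) ^ kE (rel u w) := by
      change aeval ![x, y] (map (eval s) _) = _
      rw [map_mul, map_pow, map_mul, map_C, map_mul, map_X, map_X, map_pow, map_mul, aeval_X, aeval_X, aeval_C]
      simp
    have h2 := v_lt_of_mem_span hv ψ hψ (S := Set.range fun m : H.support => part (rel u w) m) (by
      rintro _ ⟨⟨m₀, hm₀⟩, rfl⟩
      have h3 : ψ (part (rel u w) m₀) = ∑ m ∈ (map (eval s) H).support with
          u * (m 0 : ℤ) + w * m 1 = u * m₀ 0 + w * m₀ 1,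
          (((map (eval s) H).coeff m : ℤ) : ℂ) * x ^ m 0 * y ^ m 1 := by
        change ψ (∑ m ∈ H.support.filter fun m => (m₀, m) ∈ rel u w, monomial m (H.coeff m)) = _
        rw [map_sum]
        have h4 : ∀ m, ψ (monomial m (H.coeff m)) =
            (((map (eval s) H).coeff m : ℤ) : ℂ) * x ^ m 0 * y ^ m 1 := by
          intro m
          change aeval ![x, y] (map (eval s) _) = _
          rw [map_monomial, aeval_monomial, Finsupp.prod_fintype _ _ (fun i => pow_zero _),
            Fin.prod_univ_two, coeff_map, mul_assoc]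
          rfl
        rw [Finset.sum_congr rfl fun m _ => h4 m]
        symm
        refine Finset.sum_subset_zero_on_sdiff ?_ ?_ fun _ _ => rfl
        · intro m hm
          rw [Finset.mem_filter] at hm ⊢
          refine ⟨hsupp hm.1, ?_⟩
          rw [Finset.mem_filter, Finset.mem_product]
          exact ⟨⟨hm₀, hsupp hm.1⟩, hm.2.symm⟩
        · intro m hm
          rw [Finset.mem_sdiff, Finset.mem_filter, Finset.mem_filter, Finset.mem_filter, Finset.mem_product] at hm
          obtain ⟨⟨-, -, h5⟩, h6⟩ := hm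
          have h7 : m ∉ (map (eval s) H).support := fun h => h6 ⟨h, h5.symm⟩
          rw [notMem_support_iff.1 h7]
          simp
      rw [h3]
      refine lt_of_le_of_ne ?_ (hcon _)
      refine val_sum_le hv _ _ zero_le_one fun m _ => ?_
      rw [map_mul, map_mul, map_pow, map_pow, hx, hy, one_pow, one_pow, mul_one, mul_one]
      exact hv.apply_intCast_le_one) hmem
    rw [hψC, map_mul, map_pow, map_mul, hx, hy, mul_one, one_pow, mul_one] at h2
    have h3 : ¬ (p : ℤ) ∣ eval s (PE (rel u w)) := by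
      intro h
      refine e8 (h.trans (map_dvd (eval s) ?_))
      exact Finset.dvd_prod_of_mem PE (Finset.mem_powerset.2 (Finset.filter_subset _ _))
    rw [v_int_eq_one hv hp hvp h3] at h2
    exact lt_irrefl _ h2
  · refine ⟨map (eval s) A0, map (eval s) B0, D0.map (eval s), ?_, k0, ?_⟩
    · rw [pderiv_map, ← map_mul, ← map_mul, ← map_add, hs0, hmapae]
    · rw [Polynomial.coeff_map]
      exact e5
  · refine ⟨map (eval s) A1, map (eval s) B1, D1.map (eval s), ?_, k1, ?_⟩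
    · rw [pderiv_map, ← map_mul, ← map_mul, ← map_add, hs1, hmapae]
    · rw [Polynomial.coeff_map]
      exact e6
  · refine le_trans (Nat.mul_le_mul_left 64 (Nat.pow_le_pow_left (Nat.succ_le_succ ?_) 2)) hlarge.le
    rw [totalDegree, totalDegree]
    exact Finset.sup_mono hsupp

end Pool.Agent.Helper69.AA
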